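import Mathlib

/-!
Dyadic averages in `ℝ³`.
-/

set_option autoImplicit false

open MeasureTheory Set Filter Topology
open scoped ENNReal

namespace Pool.Agent.R211.FP

/-- The space `ℝ³`. -/
abbrev X := Fin 3 → ℝ

/-- The index of the dyadic cube with side `2 ^ (-k)` which contains `x`. -/
noncomputable def ix (k : ℕ) (x : X) : Fin 3 → ℤ := fun i => ⌊(2 : ℝ) ^ k * x i⌋

/-- The dyadic cube with the index `m`. -/
def Qc (k : ℕ) (m : Fin 3 → ℤ) : Set X := {y | ix k y = m}

/-- The averages over the dyadic cubes. -/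
noncomputable def E (k : ℕ) (h : X → ℝ≥0∞) (x : X) : ℝ≥0∞ := 8 ^ k * ∫⁻ y in Qc k (ix k x), h y

lemma ix_meas (k : ℕ) : Measurable (ix k) := by
  refine measurable_pi_lambda _ fun i => ?_
  exact Int.measurable_floor.comp (measurable_const.mul (measurable_pi_apply i))

lemma Qc_meas (k : ℕ) (m : Fin 3 → ℤ) : MeasurableSet (Qc k m) :=
  ix_meas k (measurableSet_singleton m)

lemma self_mem (k : ℕ) (x : X) : x ∈ Qc k (ix k x) := rfl

lemma Qc_eq (k : ℕ) (m : Fin 3 → ℤ) :
    Qc k m = Set.pi univ fun i => Ico ((m i : ℝ) / 2 ^ k) (((m i : ℝ) + 1) / 2 ^ k) := by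
  ext y
  have h2 : (0 : ℝ) < 2 ^ k := by positivity
  have h3 : ∀ i, ix k y i = m i ↔ y i ∈ Ico ((m i : ℝ) / 2 ^ k) (((m i : ℝ) + 1) / 2 ^ k) := by
    intro i
    unfold ix
    rw [Int.floor_eq_iff, mem_Ico, div_le_iff₀ h2, lt_div_iff₀ h2, mul_comm (y i)]
  constructor
  · intro hy i _
    exact (h3 i).1 (congrFun hy i)
  · intro hy
    exact funext fun i => (h3 i).2 (hy i trivial)

lemma vol_Qc (k : ℕ) (m : Fin 3 → ℤ) : volume (Qc k m) = (8 ^ k)⁻¹ := by
  have h2 : (0 : ℝ) < 2 ^ k := by positivity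
  rw [Qc_eq, volume_pi_pi]
  simp only [Real.volume_Ico]
  have h1 : ∀ i : Fin 3, ENNReal.ofReal (((m i : ℝ) + 1) / 2 ^ k - (m i : ℝ) / 2 ^ k)
      = ((2 : ℝ≥0∞) ^ k)⁻¹ := by
    intro i
    have : ((m i : ℝ) + 1) / 2 ^ k - (m i : ℝ) / 2 ^ k = (2 ^ k)⁻¹ := by
      field_simp
      ring
    rw [this, ENNReal.ofReal_inv_of_pos h2, ENNReal.ofReal_pow (by norm_num)]
    norm_num
  simp only [h1]
  rw [Finset.prod_const, Finset.card_univ, Fintype.card_fin, ← ENNReal.inv_pow, ← pow_mul,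
    mul_comm k 3, pow_mul]
  norm_num

lemma pow8_ne (k : ℕ) : (8 : ℝ≥0∞) ^ k ≠ 0 := pow_ne_zero _ (by norm_num)

lemma pow8_top (k : ℕ) : (8 : ℝ≥0∞) ^ k ≠ ⊤ := ENNReal.pow_ne_top (by norm_num)

lemma vol_ne (k : ℕ) (m : Fin 3 → ℤ) : volume (Qc k m) ≠ ⊤ := by
  rw [vol_Qc]
  exact ENNReal.inv_ne_top.2 (pow8_ne k)

lemma Qc_convex (k : ℕ) (m : Fin 3 → ℤ) : Convex ℝ (Qc k m) := by
  rw [Qc_eq]
  exact convex_pi fun i _ => convex_Ico _ _

/-- points in the same cube are close -/
lemma norm_le (k : ℕ) (m : Fin 3 → ℤ) {y z : X} (hy : y ∈ Qc k m) (hz : z ∈ Qc k m) :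
    ‖y - z‖ ≤ ((2 : ℝ) ^ k)⁻¹ := by
  have h2 : (0 : ℝ) < 2 ^ k := by positivity
  rw [Qc_eq] at hy hz
  refine (pi_norm_le_iff_of_nonneg (by positivity)).2 fun i => ?_
  have h3 := hy i trivial
  have h4 := hz i trivial
  simp only [mem_Ico] at h3 h4
  have h5 : ((m i : ℝ) + 1) / 2 ^ k = (m i : ℝ) / 2 ^ k + (2 ^ k)⁻¹ := by
    field_simp
  rw [h5] at h3 h4
  rw [Pi.sub_apply, Real.norm_eq_abs, abs_le]
  constructor <;> linarith [h3.1, h3.2, h4.1, h4.2]

lemma ix_succ (k : ℕ) {x y : X} (h : ix (k + 1) y = ix (k + 1) x) : ix k y = ix k x := by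
  funext i
  have h1 : ∀ z : X, ix k z i = ix (k + 1) z i / 2 := by
    intro z
    unfold ix
    have : (2 : ℝ) ^ k * z i = (2 ^ (k + 1) * z i) / ((2 : ℕ) : ℝ) := by
      push_cast
      field_simp
      ring
    rw [this, Int.floor_div_natCast]
    norm_num
  rw [h1, h1, h]

lemma ix_mono {j k : ℕ} (hjk : j ≤ k) {x y : X} (h : ix k y = ix k x) : ix j y = ix j x := by
  induction k, hjk using Nat.le_induction with
  | base => exact h
  | succ k _ ih => exact ih (ix_succ k h)

lemma Qc_sub {j k : ℕ} (hjk : j ≤ k) (x : X) : Qc k (ix k x) ⊆ Qc j (ix j x) :=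
  fun _ hy => ix_mono hjk hy

/-- `g` is constant on the cubes of the level `k`. -/
def Lv {F : Type*} (k : ℕ) (g : X → F) : Prop := ∀ x y, ix k y = ix k x → g y = g x

lemma Lv.mono {F : Type*} {j k : ℕ} (hjk : j ≤ k) {g : X → F} (h : Lv j g) : Lv k g :=
  fun x y hxy => h x y (ix_mono hjk hxy)

lemma E_lv (k : ℕ) (h : X → ℝ≥0∞) : Lv k (E k h) := by
  intro x y hxy
  unfold E
  rw [hxy]

lemma Lv.meas {k : ℕ} {g : X → ℝ≥0∞} (h : Lv k g) : Measurable g := by
  classical
  have h1 : ∃ F : (Fin 3 → ℤ) → ℝ≥0∞, g = F ∘ ix k := by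
    refine ⟨fun m => if hm : ∃ x, ix k x = m then g hm.choose else 0, ?_⟩
    funext x
    have hm : ∃ y, ix k y = ix k x := ⟨x, rfl⟩
    show g x = if hm : ∃ y, ix k y = ix k x then g hm.choose else 0
    rw [dif_pos hm]
    exact (h x _ hm.choose_spec).symm
  obtain ⟨F, rfl⟩ := h1
  exact (Measurable.of_discrete (f := F)).comp (ix_meas k)

lemma E_meas (k : ℕ) (h : X → ℝ≥0∞) : Measurable (E k h) := (E_lv k h).meas

lemma E_mono {k : ℕ} {g h : X → ℝ≥0∞} (hgh : ∀ x, g x ≤ h x) (x : X) : E k g x ≤ E k h x := by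
  unfold E
  gcongr
  exact hgh _

lemma E_const (k : ℕ) (c : ℝ≥0∞) (x : X) : E k (fun _ => c) x = c := by
  unfold E
  rw [setLIntegral_const, vol_Qc, mul_comm c, ← mul_assoc,
    ENNReal.mul_inv_cancel (pow8_ne k) (pow8_top k), one_mul]

lemma E_add {k : ℕ} {g h : X → ℝ≥0∞} (hg : Measurable g) (x : X) :
    E k (fun y => g y + h y) x = E k g x + E k h x := by
  unfold E
  rw [lintegral_add_left hg, mul_add]

/-- functions which are constant on the cubes are factors -/
lemma E_mul {k : ℕ} {g h : X → ℝ≥0∞} (hg : Lv k g) (hh : Measurable h) (x : X) :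
    E k (fun y => g y * h y) x = g x * E k h x := by
  unfold E
  have h1 : ∫⁻ y in Qc k (ix k x), g y * h y = ∫⁻ y in Qc k (ix k x), g x * h y := by
    refine setLIntegral_congr_fun (Qc_meas _ _) fun y hy => ?_
    have : g y = g x := hg x y hy
    rw [this]
  rw [h1, lintegral_const_mul _ hh]
  ring

lemma E_self {k : ℕ} {g : X → ℝ≥0∞} (hg : Lv k g) (x : X) : E k g x = g x := by
  have h1 := E_mul hg (measurable_const (a := (1 : ℝ≥0∞))) x
  rw [E_const, mul_one] at h1
  simpa using h1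

/-- the averages are symmetric -/
lemma E_symm (k : ℕ) {g h : X → ℝ≥0∞} (hg : Measurable g) (hh : Measurable h) :
    ∫⁻ x, E k h x * g x = ∫⁻ x, h x * E k g x := by
  classical
  have e1 : ∀ (f : X → ℝ≥0∞) (x : X), E k f x
      = 8 ^ k * ∫⁻ y, (if ix k y = ix k x then f y else 0) := by
    intro f x
    unfold E
    rw [← lintegral_indicator (Qc_meas _ _)]
    congr 1
    refine lintegral_congr fun y => ?_
    by_cases hy : ix k y = ix k x
    · rw [indicator_of_mem (show y ∈ Qc k (ix k x) from hy), if_pos hy]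
    · rw [indicator_of_notMem (show y ∉ Qc k (ix k x) from hy), if_neg hy]
  have hset : MeasurableSet {p : X × X | ix k p.2 = ix k p.1} :=
    measurableSet_eq_fun ((ix_meas k).comp measurable_snd) ((ix_meas k).comp measurable_fst)
  have e2 : ∀ x, E k h x * g x
      = ∫⁻ y, 8 ^ k * (if ix k y = ix k x then h y * g x else 0) := by
    intro x
    rw [e1, mul_assoc, ← lintegral_mul_const, ← lintegral_const_mul]
    · refine lintegral_congr fun y => ?_
      split_ifs
      · rfl
      · rw [zero_mul]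
    · refine Measurable.mul_const (Measurable.ite ?_ hh measurable_const) _
      exact Qc_meas k (ix k x)
    · exact Measurable.ite (Qc_meas k (ix k x)) hh measurable_const
  have e3 : ∀ y, h y * E k g y
      = ∫⁻ x, 8 ^ k * (if ix k y = ix k x then h y * g x else 0) := by
    intro y
    rw [e1, ← mul_assoc, mul_comm (h y), mul_assoc, ← lintegral_const_mul,
      ← lintegral_const_mul]
    · refine lintegral_congr fun x => ?_
      by_cases hx : ix k y = ix k x
      · rw [if_pos hx, if_pos hx.symm]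
      · rw [if_neg hx, if_neg (fun hh => hx hh.symm), mul_zero]
    · exact (Measurable.ite (Qc_meas k (ix k y)) hg measurable_const).const_mul _
    · exact Measurable.ite (Qc_meas k (ix k y)) hg measurable_const
  simp only [e2, e3]
  refine lintegral_lintegral_swap ?_
  refine Measurable.aemeasurable ?_
  refine (Measurable.ite hset ?_ measurable_const).const_mul _
  exact (hh.comp measurable_snd).mul (hg.comp measurable_fst)

/-- the tower property -/
lemma E_tower {j k : ℕ} (hjk : j ≤ k) {h : X → ℝ≥0∞} (hh : Measurable h) (x : X) :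
    E j (E k h) x = E j h x := by
  have h1 : ∀ f : X → ℝ≥0∞, E j f x
      = 8 ^ j * ∫⁻ y, f y * (Qc j (ix j x)).indicator (fun _ => 1) y := by
    intro f
    unfold E
    rw [← lintegral_indicator (Qc_meas _ _)]
    congr 1
    refine lintegral_congr fun y => ?_
    by_cases hy : y ∈ Qc j (ix j x)
    · rw [indicator_of_mem hy, indicator_of_mem hy, mul_one]
    · rw [indicator_of_notMem hy, indicator_of_notMem hy, mul_zero]
  have h2 : Measurable ((Qc j (ix j x)).indicator (fun _ => (1 : ℝ≥0∞))) :=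
    measurable_const.indicator (Qc_meas _ _)
  have h3 : Lv k ((Qc j (ix j x)).indicator (fun _ => (1 : ℝ≥0∞))) := by
    intro y z hyz
    have h4 : ix j z = ix j y := ix_mono hjk hyz
    by_cases hy : y ∈ Qc j (ix j x)
    · have hz : z ∈ Qc j (ix j x) := h4.trans hy
      rw [indicator_of_mem hy, indicator_of_mem hz]
    · have hz : z ∉ Qc j (ix j x) := fun hz => hy (h4.symm.trans hz)
      rw [indicator_of_notMem hy, indicator_of_notMem hz]
  rw [h1, h1, E_symm k h2 hh]
  congr 1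
  refine lintegral_congr fun y => ?_
  rw [E_self h3]

end Pool.Agent.R211.FP
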