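import Pool.Agent.R211.FP.Mn
import Pool.Agent.TH340.FF.En2

/-!
Two-sided form bounds and the energy equality.
-/

set_option autoImplicit false

open MeasureTheory Set Filter Topology
open scoped InnerProductSpace ENNReal ContDiff

namespace Pool.Agent.R211.FP

open H772R2.NS Pool.Agent.TH340.FF

/-- for matrices with trace zero a lower bound of the form is an upper bound -/
lemma flip {W : Fin 3 → Fin 3 → ℝ} (h0 : ∑ i, W i i = 0) {l : ℝ}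
    (h : ∀ ξ : E3, -(l * ‖ξ‖ ^ 2) ≤ ∑ i, ∑ j, W i j * (ξ i * ξ j)) (ξ : E3) :
    ∑ i, ∑ j, W i j * (ξ i * ξ j) ≤ 2 * l * ‖ξ‖ ^ 2 := by
  have a1 := h (WithLp.toLp 2 ![0, ξ 2, -ξ 1])
  have a2 := h (WithLp.toLp 2 ![-ξ 2, 0, ξ 0])
  have a3 := h (WithLp.toLp 2 ![ξ 1, -ξ 0, 0])
  rw [norm_sq_E3] at a1 a2 a3 ⊢
  simp only [Fin.sum_univ_three] at a1 a2 a3 h0 ⊢
  simp at a1 a2 a3
  have h2 : W 2 2 = -W 0 0 - W 1 1 := by linarith
  rw [h2] at a1 a2 ⊢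
  linarith

lemma flip' {W : Fin 3 → Fin 3 → ℝ} (h0 : ∑ i, W i i = 0) {l : ℝ}
    (h : ∀ ξ : E3, ∑ i, ∑ j, W i j * (ξ i * ξ j) ≤ l * ‖ξ‖ ^ 2) (ξ : E3) :
    -(2 * l * ‖ξ‖ ^ 2) ≤ ∑ i, ∑ j, W i j * (ξ i * ξ j) := by
  have h1 := flip (W := fun i j => -W i j) (by simp [h0]) (l := l) (fun η => by
    have := h η
    have e1 : ∑ i, ∑ j, -W i j * (η i * η j) = -∑ i, ∑ j, W i j * (η i * η j) := by
      simp only [neg_mul, Finset.sum_neg_distrib]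
    rw [e1]
    linarith) ξ
  have e1 : ∑ i, ∑ j, -W i j * (ξ i * ξ j) = -∑ i, ∑ j, W i j * (ξ i * ξ j) := by
    simp only [neg_mul, Finset.sum_neg_distrib]
  rw [e1] at h1
  linarith

section

variable {Ω : Set E3}

/-- the other sign -/
theorem form_graph_neg {p : ℝ} (hp : 1 < p) (hΩ : MeasurableSet Ω) (hb : Bornology.IsBounded Ω)
    {ν c₁ c₂ ρ β : ℝ} (hν : 0 < ν) (hc₁ : 0 < c₁) (hc₂ : 0 < c₂) (hρ : 0 < ρ)
    {a : E3 → E3} (ha : Measurable a) {v : E3 → ℝ} (hv : Measurable v)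
    {W : Fin 3 → Fin 3 → E3 → ℝ} (hW : ∀ i j, LocallyIntegrableOn (W i j) Ω)
    {U : L2V Ω} {G : L2M Ω} (hU : (U, G) ∈ graphW Ω)
    (hMa : ∀ x : E3, ∀ r : ℝ, 0 < r → r ≤ ρ → ∫⁻ y in Metric.ball x r ∩ Ω, ‖a y‖ₑ ^ (2 * p)
      ≤ ENNReal.ofReal ((c₁ * ν) ^ (2 * p) * r ^ (3 - 2 * p)))
    (hMv : ∀ x : E3, ∀ r : ℝ, 0 < r → r ≤ ρ →
      ∫⁻ y in Metric.ball x r ∩ Ω, ENNReal.ofReal (v y) ^ p
        ≤ ENNReal.ofReal ((c₂ * ν) ^ p * r ^ (3 - 2 * p)))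
    (hw : ∀ ψ : E3 → ℝ, ContDiff ℝ ∞ ψ → HasCompactSupport ψ → tsupport ψ ⊆ Ω → ∀ i j,
      ∫ x in Ω, ((U x) i - (a x) i) * fderiv ℝ ψ x (ev j) = -∫ x in Ω, W i j x * ψ x)
    (hs : ∀ᵐ x ∂(volume.restrict Ω), ∀ ξ : E3,
      ∑ i, ∑ j, W i j x * (ξ i * ξ j) ≤ (v x + β) * ‖ξ‖ ^ 2)
    {q : L2V Ω × L2M Ω} (hq : q ∈ graphW Ω) :
    ⟪tensL q.1, G⟫_ℝ ≤ (kap p * c₁ + kap p ^ 2 * c₂) * ν * ‖q.2‖ ^ 2
      + ((kap p * c₁ + kap p ^ 2 * c₂) * ν / ρ ^ 2 + β) * ‖q.1‖ ^ 2 := by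
  have hUn : (-U, -G) ∈ graphW Ω := (graphW Ω).neg_mem hU
  have key := form_graph hp hΩ hb hν hc₁ hc₂ hρ (a := fun x => -a x) ha.neg hv
    (W := fun i j x => -W i j x) (fun i j => (hW i j).neg) hUn
    (fun x r h1 h2 => by
      refine le_trans (le_of_eq ?_) (hMa x r h1 h2)
      refine lintegral_congr fun y => ?_
      rw [enorm_neg]) hMv
    (fun ψ h1 h2 h3 i j => by
      have e1 := hw ψ h1 h2 h3 i j
      have e2 : ∫ x in Ω, (((-U : L2V Ω) x) i - (-a x) i) * fderiv ℝ ψ x (ev j)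
          = -∫ x in Ω, ((U x) i - (a x) i) * fderiv ℝ ψ x (ev j) := by
        rw [← integral_neg]
        refine integral_congr_ae ?_
        filter_upwards [Lp.coeFn_neg U] with x hx
        rw [hx, Pi.neg_apply, PiLp.neg_apply, PiLp.neg_apply]
        ring
      have e3 : ∫ x in Ω, -W i j x * ψ x = -∫ x in Ω, W i j x * ψ x := by
        rw [← integral_neg]
        refine integral_congr_ae (Eventually.of_forall fun x => ?_)
        simp only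
        ring
      rw [e2, e3, e1])
    (by
      filter_upwards [hs] with x hx ξ
      have e1 : ∑ i, ∑ j, -W i j x * (ξ i * ξ j) = -∑ i, ∑ j, W i j x * (ξ i * ξ j) := by
        simp only [neg_mul, Finset.sum_neg_distrib]
      rw [e1]
      have := hx ξ
      linarith) hq
  rw [inner_neg_right, neg_neg] at key
  exact key

lemma double_morrey {p c ρ : ℝ} (hp : 1 < p) (hc : 0 < c) {v : E3 → ℝ}
    (hMv : ∀ x : E3, ∀ r : ℝ, 0 < r → r ≤ ρ →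
      ∫⁻ y in Metric.ball x r ∩ Ω, ENNReal.ofReal (v y) ^ p
        ≤ ENNReal.ofReal (c ^ p * r ^ (3 - 2 * p))) (x : E3) (r : ℝ) (hr : 0 < r) (hrρ : r ≤ ρ) :
    ∫⁻ y in Metric.ball x r ∩ Ω, ENNReal.ofReal (2 * v y) ^ p
        ≤ ENNReal.ofReal ((2 * c) ^ p * r ^ (3 - 2 * p)) := by
  have e1 : ∀ y, ENNReal.ofReal (2 * v y) ^ p = ENNReal.ofReal (2 ^ p) * ENNReal.ofReal (v y) ^ p := by
    intro y
    rw [ENNReal.ofReal_mul (by norm_num), ENNReal.mul_rpow_of_nonneg _ _ (by linarith),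
      ENNReal.ofReal_rpow_of_pos (by norm_num)]
  simp_rw [e1]
  rw [lintegral_const_mul' _ _ ENNReal.ofReal_ne_top, Real.mul_rpow (by norm_num) hc.le, mul_assoc,
    ENNReal.ofReal_mul (by positivity)]
  gcongr
  exact hMv x r hr hrρ

/-- two-sided form bound -/
theorem form_abs {p : ℝ} (hp : 1 < p) (hΩ : MeasurableSet Ω) (hb : Bornology.IsBounded Ω)
    {c ρ β : ℝ} (hc : 0 < c) (hρ : 0 < ρ) (hβ : 0 ≤ β)
    {a : E3 → E3} (ha : Measurable a) {v : E3 → ℝ} (hv : Measurable v)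
    {W : Fin 3 → Fin 3 → E3 → ℝ} (hW : ∀ i j, LocallyIntegrableOn (W i j) Ω)
    {U : L2V Ω} {G : L2M Ω} (hU : (U, G) ∈ graphW Ω)
    (hMa : ∀ x : E3, ∀ r : ℝ, 0 < r → r ≤ ρ → ∫⁻ y in Metric.ball x r ∩ Ω, ‖a y‖ₑ ^ (2 * p)
      ≤ ENNReal.ofReal (c ^ (2 * p) * r ^ (3 - 2 * p)))
    (hMv : ∀ x : E3, ∀ r : ℝ, 0 < r → r ≤ ρ →
      ∫⁻ y in Metric.ball x r ∩ Ω, ENNReal.ofReal (v y) ^ p
        ≤ ENNReal.ofReal (c ^ p * r ^ (3 - 2 * p)))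
    (hw : ∀ ψ : E3 → ℝ, ContDiff ℝ ∞ ψ → HasCompactSupport ψ → tsupport ψ ⊆ Ω → ∀ i j,
      ∫ x in Ω, ((U x) i - (a x) i) * fderiv ℝ ψ x (ev j) = -∫ x in Ω, W i j x * ψ x)
    (h0 : ∀ᵐ x ∂(volume.restrict Ω), ∑ i, W i i x = 0)
    (hs : (∀ᵐ x ∂(volume.restrict Ω), ∀ ξ : E3,
        -((v x + β) * ‖ξ‖ ^ 2) ≤ ∑ i, ∑ j, W i j x * (ξ i * ξ j)) ∨
      (∀ᵐ x ∂(volume.restrict Ω), ∀ ξ : E3,
        ∑ i, ∑ j, W i j x * (ξ i * ξ j) ≤ (v x + β) * ‖ξ‖ ^ 2))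
    {q : L2V Ω × L2M Ω} (hq : q ∈ graphW Ω) :
    |⟪tensL q.1, G⟫_ℝ| ≤ (kap p * c + kap p ^ 2 * (2 * c)) * ‖q.2‖ ^ 2
      + ((kap p * c + kap p ^ 2 * (2 * c)) / ρ ^ 2 + 2 * β) * ‖q.1‖ ^ 2 := by
  have hk := kap_pos hp
  have hMa1 : ∀ x : E3, ∀ r : ℝ, 0 < r → r ≤ ρ → ∫⁻ y in Metric.ball x r ∩ Ω, ‖a y‖ₑ ^ (2 * p)
      ≤ ENNReal.ofReal ((c * 1) ^ (2 * p) * r ^ (3 - 2 * p)) := by
    rw [mul_one]
    exact hMa
  have hMv2 : ∀ x : E3, ∀ r : ℝ, 0 < r → r ≤ ρ →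
      ∫⁻ y in Metric.ball x r ∩ Ω, ENNReal.ofReal (2 * v y) ^ p
        ≤ ENNReal.ofReal (((2 * c) * 1) ^ p * r ^ (3 - 2 * p)) := by
    rw [mul_one]
    exact double_morrey hp hc hMv
  have hv2 : Measurable fun x => 2 * v x := hv.const_mul 2
  have hlo : ∀ᵐ x ∂(volume.restrict Ω), ∀ ξ : E3,
      -((2 * max (v x) 0 + 2 * β) * ‖ξ‖ ^ 2) ≤ ∑ i, ∑ j, W i j x * (ξ i * ξ j) := by
    rcases hs with hs | hs
    · filter_upwards [hs] with x hx ξ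
      refine le_trans ?_ (hx ξ)
      have b1 : v x ≤ max (v x) 0 := le_max_left _ _
      have b2 : 0 ≤ max (v x) 0 := le_max_right _ _
      have b3 : (v x + β) * ‖ξ‖ ^ 2 ≤ (2 * max (v x) 0 + 2 * β) * ‖ξ‖ ^ 2 := by
        have : v x + β ≤ 2 * max (v x) 0 + 2 * β := by linarith
        gcongr
      linarith
    · filter_upwards [hs, h0] with x hx h0x ξ
      have b4 := flip' h0x (l := max (v x) 0 + β) (fun η => (hx η).trans (by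
        have b1 : v x ≤ max (v x) 0 := le_max_left _ _
        gcongr)) ξ
      refine le_trans (le_of_eq ?_) b4
      ring
  have hup : ∀ᵐ x ∂(volume.restrict Ω), ∀ ξ : E3,
      ∑ i, ∑ j, W i j x * (ξ i * ξ j) ≤ (2 * max (v x) 0 + 2 * β) * ‖ξ‖ ^ 2 := by
    rcases hs with hs | hs
    · filter_upwards [hs, h0] with x hx h0x ξ
      have b4 := flip h0x (l := max (v x) 0 + β) (fun η => le_trans (by
        have b1 : v x ≤ max (v x) 0 := le_max_left _ _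
        have b2 : (v x + β) * ‖η‖ ^ 2 ≤ (max (v x) 0 + β) * ‖η‖ ^ 2 := by gcongr
        linarith) (hx η)) ξ
      refine b4.trans (le_of_eq ?_)
      ring
    · filter_upwards [hs] with x hx ξ
      refine (hx ξ).trans ?_
      have b1 : v x ≤ max (v x) 0 := le_max_left _ _
      have b2 : 0 ≤ max (v x) 0 := le_max_right _ _
      have : v x + β ≤ 2 * max (v x) 0 + 2 * β := by linarith
      gcongr
  have hv3 : Measurable fun x => 2 * max (v x) 0 := (hv.max measurable_const).const_mul 2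
  have hMv3 : ∀ x : E3, ∀ r : ℝ, 0 < r → r ≤ ρ →
      ∫⁻ y in Metric.ball x r ∩ Ω, ENNReal.ofReal (2 * max (v y) 0) ^ p
        ≤ ENNReal.ofReal (((2 * c) * 1) ^ p * r ^ (3 - 2 * p)) := by
    intro x r h1 h2
    refine le_trans (le_of_eq ?_) (hMv2 x r h1 h2)
    refine lintegral_congr fun y => ?_
    rcases le_total (v y) 0 with h3 | h3
    · rw [max_eq_right h3, mul_zero, ENNReal.ofReal_zero,
        ENNReal.ofReal_of_nonpos (by linarith : 2 * v y ≤ 0)]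
    · rw [max_eq_left h3]
  have k1 := form_graph hp hΩ hb one_pos hc (by positivity : 0 < 2 * c) hρ ha hv3 hW hU hMa1 hMv3
    hw hlo hq
  have k2 := form_graph_neg hp hΩ hb one_pos hc (by positivity : 0 < 2 * c) hρ ha hv3 hW hU hMa1
    hMv3 hw hup hq
  rw [mul_one] at k1 k2
  rw [abs_le]
  constructor <;> linarith

end

end Pool.Agent.R211.FP
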