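import Pool.Agent.R211.FP.Vf

/-!
The form inequality for test fields.
-/

set_option autoImplicit false

open MeasureTheory Set Filter Topology
open scoped InnerProductSpace ENNReal ContDiff

namespace Pool.Agent.R211.FP

open H772R2.NS Pool.Agent.TH340.FF

section

variable {Ω : Set E3} {φ : E3 → E3}

lemma dp_coord (h : IsTest Ω φ) (i : Fin 3) (x : E3) :
    ∑ j, fderiv ℝ (fun x => φ x i * φ x j) x (ev j) = f1 φ x i := by
  simp_rw [fderiv_mul_coord h.smooth]
  rw [Finset.sum_add_distrib, ← Finset.mul_sum, h.divfree x, mul_zero, zero_add]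
  rfl

/-- The form inequality for test fields. -/
theorem form_test {p : ℝ} (hp : 1 < p) (hΩ : MeasurableSet Ω) (hb : Bornology.IsBounded Ω)
    {ν c₁ c₂ ρ β : ℝ} (hν : 0 < ν) (hc₁ : 0 < c₁) (hc₂ : 0 < c₂) (hρ : 0 < ρ)
    {a : E3 → E3} (ha : Measurable a) {v : E3 → ℝ} (hv : Measurable v)
    {W : Fin 3 → Fin 3 → E3 → ℝ} (hW : ∀ i j, LocallyIntegrableOn (W i j) Ω) (U : L2V Ω)
    (hMa : ∀ x : E3, ∀ r : ℝ, 0 < r → r ≤ ρ → ∫⁻ y in Metric.ball x r ∩ Ω, ‖a y‖ₑ ^ (2 * p)
      ≤ ENNReal.ofReal ((c₁ * ν) ^ (2 * p) * r ^ (3 - 2 * p)))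
    (hMv : ∀ x : E3, ∀ r : ℝ, 0 < r → r ≤ ρ →
      ∫⁻ y in Metric.ball x r ∩ Ω, ENNReal.ofReal (v y) ^ p
        ≤ ENNReal.ofReal ((c₂ * ν) ^ p * r ^ (3 - 2 * p)))
    (hw : ∀ ψ : E3 → ℝ, ContDiff ℝ ∞ ψ → HasCompactSupport ψ → tsupport ψ ⊆ Ω → ∀ i j,
      ∫ x in Ω, ((U x) i - (a x) i) * fderiv ℝ ψ x (ev j) = -∫ x in Ω, W i j x * ψ x)
    (hs : ∀ᵐ x ∂(volume.restrict Ω), ∀ ξ : E3,
      -((v x + β) * ‖ξ‖ ^ 2) ≤ ∑ i, ∑ j, W i j x * (ξ i * ξ j))
    (h : IsTest Ω φ) :
    ∫ x, ∑ i, ext Ω U x i * f1 φ x i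
      ≤ (kap p * c₁ + kap p ^ 2 * c₂) * ν * ((∫ x, ∑ i, ∑ j, jac φ x (i, j) ^ 2)
          + 1 / ρ ^ 2 * ∫ x, ∑ i, φ x i ^ 2) + β * ∫ x, ∑ i, φ x i ^ 2 := by
  have hk := kap_pos hp
  set κ := kap p with hκ
  have hsm := h.smooth
  have hcs := h.compact
  set D := ∫ x, ∑ i, ∑ j, jac φ x (i, j) ^ 2 with hD
  set N := ∫ x, ∑ i, φ x i ^ 2 with hN
  have hD0 : 0 ≤ D := integral_nonneg fun x => by positivity
  have hN0 : 0 ≤ N := integral_nonneg fun x => by positivity
  have hφ0 : ∀ x ∉ Ω, φ x = 0 := fun x hx =>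
    image_eq_zero_of_notMem_tsupport fun hc => hx (h.supp hc)
  -- extensions
  set a' : E3 → E3 := Ω.indicator a with ha'
  set v' : E3 → ℝ := Ω.indicator fun x => max (v x) 0 with hv'
  have ham : Measurable a' := ha.indicator hΩ
  have hvm : Measurable v' := (hv.max measurable_const).indicator hΩ
  have hv0 : ∀ x, 0 ≤ v' x := fun x => indicator_nonneg (fun y _ => le_max_right _ _) x
  obtain ⟨I1, J1⟩ := real_FP hp hvm hv0 (B := c₂ * ν) (by positivity) hρ (fun x r hr hrρ => by
    refine le_trans (le_of_eq ?_) (hMv x r hr hrρ)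
    rw [inter_comm, ← setLIntegral_indicator hΩ]
    refine lintegral_congr fun y => ?_
    by_cases hy : y ∈ Ω
    · simp only [hv', indicator_of_mem hy]
      congr 1
      rcases le_total (v y) 0 with h0 | h0
      · rw [max_eq_right h0, ENNReal.ofReal_of_nonpos h0, ENNReal.ofReal_zero]
      · rw [max_eq_left h0]
    · simp only [hv', indicator_of_notMem hy]
      rw [ENNReal.ofReal_zero, ENNReal.zero_rpow_of_pos (by linarith)]) hsm hcs
  have ham2 : Measurable fun x => ‖a' x‖ ^ 2 := ham.norm.pow_const 2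
  obtain ⟨I2, J2⟩ := real_FP hp ham2 (fun x => by positivity) (B := (c₁ * ν) ^ 2)
    (by positivity) hρ (fun x r hr hrρ => by
    refine le_trans (le_of_eq ?_) ((hMa x r hr hrρ).trans (le_of_eq ?_))
    · rw [inter_comm, ← setLIntegral_indicator hΩ]
      refine lintegral_congr fun y => ?_
      by_cases hy : y ∈ Ω
      · simp only [ha', indicator_of_mem hy]
        rw [ENNReal.ofReal_pow (norm_nonneg _), ofReal_norm, ENNReal.rpow_mul]
        norm_num
      · simp only [ha', indicator_of_notMem hy]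
        rw [norm_zero, zero_pow (by norm_num), ENNReal.ofReal_zero,
          ENNReal.zero_rpow_of_pos (by linarith)]
    · congr 2
      rw [Real.rpow_mul (by positivity)]
      norm_num) hsm hcs
  rw [← hκ] at J1 J2
  rw [← hD, ← hN] at J1 J2
  -- integrability
  have a_le : ∀ x i, |a' x i| ≤ ‖a' x‖ := fun x i => by
    have := PiLp.norm_apply_le (a' x) i
    rwa [Real.norm_eq_abs] at this
  have phi_le : ∀ x k, φ x k ^ 2 ≤ ∑ i, φ x i ^ 2 := fun x k =>
    Finset.single_le_sum (f := fun i => φ x i ^ 2) (fun i _ => by positivity) (Finset.mem_univ k)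
  have jac_le : ∀ x k l, jac φ x (k, l) ^ 2 ≤ ∑ i, ∑ j, jac φ x (i, j) ^ 2 := fun x k l =>
    (Finset.single_le_sum (f := fun j => jac φ x (k, j) ^ 2) (fun i _ => by positivity)
      (Finset.mem_univ l)).trans
      (Finset.single_le_sum (f := fun i => ∑ j, jac φ x (i, j) ^ 2)
        (fun i _ => by positivity) (Finset.mem_univ k))
  have acoord : ∀ i, Measurable fun x => a' x i := fun i =>
    (EuclideanSpace.proj (𝕜 := ℝ) i : E3 →L[ℝ] ℝ).continuous.measurable.comp ham
  have intA : ∀ i k l m, Integrable fun x => a' x i * (φ x k * jac φ x (l, m)) := by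
    intro i k l m
    refine ((I2.add (int_jac2 hsm hcs))).mono' ?_ (Eventually.of_forall fun x => ?_)
    · exact ((acoord i).mul ((contDiff_coord hsm k).continuous.mul
        (cont_jac_coord hsm l m)).measurable).aestronglyMeasurable
    · show ‖a' x i * (φ x k * jac φ x (l, m))‖
        ≤ ‖a' x‖ ^ 2 * ∑ i, φ x i ^ 2 + ∑ i, ∑ j, jac φ x (i, j) ^ 2
      rw [norm_mul, norm_mul, Real.norm_eq_abs, Real.norm_eq_abs, Real.norm_eq_abs]
      have b1 := a_le x i
      have b2 := phi_le x k
      have b3 := jac_le x l m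
      have b4 : |a' x i| ^ 2 * |φ x k| ^ 2 ≤ ‖a' x‖ ^ 2 * ∑ i, φ x i ^ 2 := by
        rw [sq_abs (φ x k)]
        gcongr
      have b5 : |jac φ x (l, m)| ^ 2 ≤ ∑ i, ∑ j, jac φ x (i, j) ^ 2 := by
        rw [sq_abs]
        exact b3
      nlinarith [sq_nonneg (|a' x i| * |φ x k| - |jac φ x (l, m)|),
        mul_nonneg (mul_nonneg (abs_nonneg (a' x i)) (abs_nonneg (φ x k)))
          (abs_nonneg (jac φ x (l, m)))]
  have hUi := ext_integrable hΩ hb U
  have c2 : ∀ i a b, Continuous fun x => φ x i * jac φ x (a, b) := fun i a b =>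
    (contDiff_coord hsm i).continuous.mul (cont_jac_coord hsm a b)
  have s2 : ∀ i a b, HasCompactSupport fun x => φ x i * jac φ x (a, b) := fun i a b =>
    (hasCompactSupport_coord hcs i).mul_right
  have intU : ∀ i k l m, Integrable fun x => ext Ω U x i * (φ x k * jac φ x (l, m)) :=
    fun i k l m => int_W hUi (c2 k l m) (s2 k l m) i
  set w : E3 → Fin 3 → ℝ := fun x i => ext Ω U x i - a' x i with hwdef
  have intw : ∀ i k l m, Integrable fun x => w x i * (φ x k * jac φ x (l, m)) := by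
    intro i k l m
    refine ((intU i k l m).sub (intA i k l m)).congr (Eventually.of_forall fun x => ?_)
    simp only [hwdef, Pi.sub_apply]
    ring
  -- the derivative terms
  have intd : ∀ i j, Integrable fun x => w x i * fderiv ℝ (fun x => φ x i * φ x j) x (ev j) := by
    intro i j
    refine ((intw i i j j).add (intw i j i j)).congr (Eventually.of_forall fun x => ?_)
    simp only [Pi.add_apply]
    rw [fderiv_mul_coord hsm]
    ring
  have hψ : ∀ i j, ContDiff ℝ ∞ fun x => φ x i * φ x j := fun i j =>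
    (contDiff_coord hsm i).mul (contDiff_coord hsm j)
  have hψc : ∀ i j, HasCompactSupport fun x => φ x i * φ x j := fun i j =>
    (hasCompactSupport_coord hcs i).mul_right
  have hψs : ∀ i j, tsupport (fun x => φ x i * φ x j) ⊆ tsupport φ := fun i j => by
    refine closure_mono fun x hx => ?_
    intro h0
    apply hx
    simp only
    rw [h0]
    simp
  have hKc : IsCompact (tsupport φ) := hcs
  -- integrability of the products with `W`
  have hWK : ∀ i j, IntegrableOn (W i j) (tsupport φ) := fun i j =>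
    (hW i j).integrableOn_compact_subset h.supp hKc
  have intW : ∀ i j, IntegrableOn (fun x => W i j x * (φ x i * φ x j)) Ω := by
    intro i j
    have e1 : IntegrableOn (fun x => W i j x * (φ x i * φ x j)) (tsupport φ) := by
      have e2 : IntegrableOn (fun x => W i j x) (tsupport φ) := hWK i j
      obtain ⟨C, hC⟩ := (hψc i j).exists_bound_of_continuous (hψ i j).continuous
      exact Integrable.mul_bdd (c := C) e2 (hψ i j).continuous.aestronglyMeasurable
        (Eventually.of_forall hC)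
    have e3 : IntegrableOn (fun x => W i j x * (φ x i * φ x j)) univ := by
      refine e1.of_forall_sdiff_eq_zero MeasurableSet.univ fun x hx => ?_
      have : φ x = 0 := image_eq_zero_of_notMem_tsupport hx.2
      rw [this]
      simp
    exact e3.mono_set (subset_univ _)
  -- the weak gradient
  have g1 : ∀ i j, ∫ x, w x i * fderiv ℝ (fun x => φ x i * φ x j) x (ev j)
      = -∫ x in Ω, W i j x * (φ x i * φ x j) := by
    intro i j
    rw [← hw _ (hψ i j) (hψc i j) ((hψs i j).trans h.supp) i j]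
    rw [← setIntegral_eq_integral_of_forall_compl_eq_zero (s := Ω)]
    · refine setIntegral_congr_fun hΩ fun x hx => ?_
      simp only [hwdef, TH340.FF.ext, ha', indicator_of_mem hx]
    · intro x hx
      simp only [hwdef, TH340.FF.ext, ha', indicator_of_notMem hx]
      simp
  have g2 : ∫ x, ∑ i, w x i * f1 φ x i = -∫ x in Ω, ∑ i, ∑ j, W i j x * (φ x i * φ x j) := by
    have e1 : ∀ x, ∑ i, w x i * f1 φ x i
        = ∑ i, ∑ j, w x i * fderiv ℝ (fun x => φ x i * φ x j) x (ev j) := by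
      intro x
      refine Finset.sum_congr rfl fun i _ => ?_
      rw [← Finset.mul_sum, dp_coord h]
    simp_rw [e1]
    rw [integral_finsetSum _ fun i _ => integrable_finsetSum _ fun j _ => intd i j,
      integral_finsetSum _ fun i _ => integrable_finsetSum _ fun j _ => intW i j,
      ← Finset.sum_neg_distrib]
    refine Finset.sum_congr rfl fun i _ => ?_
    rw [integral_finsetSum _ fun j _ => intd i j, integral_finsetSum _ fun j _ => intW i j,
      ← Finset.sum_neg_distrib]
    exact Finset.sum_congr rfl fun j _ => g1 i j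
  have g3 : -∫ x in Ω, ∑ i, ∑ j, W i j x * (φ x i * φ x j)
      ≤ (∫ x, v' x * ∑ i, φ x i ^ 2) + β * N := by
    have e1 : (∫ x, v' x * ∑ i, φ x i ^ 2) + β * N
        = ∫ x in Ω, (v' x * ∑ i, φ x i ^ 2 + β * ∑ i, φ x i ^ 2) := by
      rw [hN, ← integral_const_mul, ← integral_add I1 ((int_phi2 hsm hcs).const_mul β),
        ← setIntegral_eq_integral_of_forall_compl_eq_zero (s := Ω)]
      intro x hx
      rw [hφ0 x hx]
      simp
    rw [e1, ← integral_neg]
    refine integral_mono_ae ?_ ?_ ?_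
    · exact (integrable_finsetSum _ fun i _ => integrable_finsetSum _ fun j _ => intW i j).neg
    · exact (I1.add ((int_phi2 hsm hcs).const_mul β)).integrableOn
    · filter_upwards [hs, ae_restrict_mem hΩ] with x hx hxΩ
      have b1 := hx (φ x)
      rw [norm_sq_E3] at b1
      have b2 : v x ≤ v' x := by
        simp only [hv', indicator_of_mem hxΩ]
        exact le_max_left _ _
      have b3 : 0 ≤ ∑ i, φ x i ^ 2 := by positivity
      have b4 : v x * ∑ i, φ x i ^ 2 ≤ v' x * ∑ i, φ x i ^ 2 := by gcongr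
      linarith
  -- the small part of the velocity
  set m := κ * c₁ * ν with hm
  have hm0 : 0 < m := by positivity
  have jA : Integrable fun x => ∑ i, a' x i * f1 φ x i := by
    have : (fun x => ∑ i, a' x i * f1 φ x i)
        = fun x => ∑ i, ∑ j, a' x i * (φ x j * jac φ x (i, j)) := by
      funext x
      rw [f1_sum]
    rw [this]
    exact integrable_finsetSum _ fun i _ => integrable_finsetSum _ fun j _ => intA i j i j
  have jw : Integrable fun x => ∑ i, w x i * f1 φ x i := by
    have : (fun x => ∑ i, w x i * f1 φ x i)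
        = fun x => ∑ i, ∑ j, w x i * (φ x j * jac φ x (i, j)) := by
      funext x
      refine Finset.sum_congr rfl fun i _ => ?_
      rw [← Finset.mul_sum]
      rfl
    rw [this]
    exact integrable_finsetSum _ fun i _ => integrable_finsetSum _ fun j _ => intw i j i j
  have g4 : ∫ x, ∑ i, a' x i * f1 φ x i ≤ m * (D + 1 / ρ ^ 2 * N) := by
    have b1 : ∀ x, ∑ i, a' x i * f1 φ x i
        ≤ 1 / (2 * m) * (‖a' x‖ ^ 2 * ∑ i, φ x i ^ 2)
          + m / 2 * ∑ i, ∑ j, jac φ x (i, j) ^ 2 := by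
      intro x
      rw [← f1_sum, norm_sq_E3, Finset.sum_mul_sum, Finset.mul_sum, Finset.mul_sum,
        ← Finset.sum_add_distrib]
      refine Finset.sum_le_sum fun i _ => ?_
      rw [Finset.mul_sum, Finset.mul_sum, ← Finset.sum_add_distrib]
      refine Finset.sum_le_sum fun j _ => ?_
      have b2 : 0 ≤ (a' x i * φ x j - m * jac φ x (i, j)) ^ 2 / (2 * m) := by positivity
      have b3 : (a' x i * φ x j - m * jac φ x (i, j)) ^ 2 / (2 * m)
          = 1 / (2 * m) * (a' x i ^ 2 * φ x j ^ 2) + m / 2 * jac φ x (i, j) ^ 2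
            - a' x i * (φ x j * jac φ x (i, j)) := by
        field_simp
        ring
      linarith
    have b4 : ∫ x, ∑ i, a' x i * f1 φ x i
        ≤ ∫ x, (1 / (2 * m) * (‖a' x‖ ^ 2 * ∑ i, φ x i ^ 2)
          + m / 2 * ∑ i, ∑ j, jac φ x (i, j) ^ 2) :=
      integral_mono jA ((I2.const_mul _).add ((int_jac2 hsm hcs).const_mul _)) b1
    refine b4.trans ?_
    rw [integral_add (I2.const_mul _) ((int_jac2 hsm hcs).const_mul _), integral_const_mul,
      integral_const_mul, ← hD]
    have b5 : 1 / (2 * m) * ∫ x, ‖a' x‖ ^ 2 * ∑ i, φ x i ^ 2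
        ≤ 1 / (2 * m) * (κ ^ 2 * (c₁ * ν) ^ 2 * (D + 1 / ρ ^ 2 * N)) := by gcongr
    have b6 : 1 / (2 * m) * (κ ^ 2 * (c₁ * ν) ^ 2 * (D + 1 / ρ ^ 2 * N))
        = m / 2 * (D + 1 / ρ ^ 2 * N) := by
      rw [hm]
      field_simp
    have b7 : 0 ≤ m / 2 * (1 / ρ ^ 2 * N) := by positivity
    linarith
  have e9 : ∫ x, ∑ i, ext Ω U x i * f1 φ x i
      = (∫ x, ∑ i, a' x i * f1 φ x i) + ∫ x, ∑ i, w x i * f1 φ x i := by
    rw [← integral_add jA jw]
    refine integral_congr_ae (Eventually.of_forall fun x => ?_)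
    simp only
    rw [← Finset.sum_add_distrib]
    refine Finset.sum_congr rfl fun i _ => ?_
    simp only [hwdef]
    ring
  rw [e9, g2]
  have e10 : (κ * c₁ + κ ^ 2 * c₂) * ν * (D + 1 / ρ ^ 2 * N) + β * N
      = m * (D + 1 / ρ ^ 2 * N) + (κ ^ 2 * (c₂ * ν) * (D + 1 / ρ ^ 2 * N) + β * N) := by
    rw [hm]
    ring
  rw [e10]
  have e11 := g3.trans (add_le_add_left J1 (β * N))
  linarith

end

end Pool.Agent.R211.FP
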