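import Pool.Agent.H772R2.NS.Pub

/-!
Public definitions: Morrey conditions, weak gradients, one-sided bounds.
-/

set_option autoImplicit false

open MeasureTheory Set
open scoped InnerProductSpace ENNReal ContDiff

namespace Pool.Agent.R211.FP

open H772R2.NS.Pub

/-- The scale invariant Morrey condition for a velocity field `a` in `Ω`, at the scales up to `ρ`:
`∫_{B(x,r) ∩ Ω} |a|^{2p} ≤ c^{2p} r^{3-2p}` for all `x` and `0 < r ≤ ρ`. -/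
def SmallField (Ω : Set R3) (p c ρ : ℝ) (a : R3 → R3) : Prop :=
  Measurable a ∧ ∀ (x : R3) (r : ℝ), 0 < r → r ≤ ρ →
    ∫⁻ y in Metric.ball x r ∩ Ω, ‖a y‖ₑ ^ (2 * p) ≤ ENNReal.ofReal (c ^ (2 * p) * r ^ (3 - 2 * p))

/-- The scale invariant Morrey condition for the positive part of a function `V` in `Ω`, at the
scales up to `ρ`: `∫_{B(x,r) ∩ Ω} V₊^p ≤ c^p r^{3-2p}` for all `x` and `0 < r ≤ ρ`. -/
def SmallPotential (Ω : Set R3) (p c ρ : ℝ) (V : R3 → ℝ) : Prop :=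
  Measurable V ∧ ∀ (x : R3) (r : ℝ), 0 < r → r ≤ ρ →
    ∫⁻ y in Metric.ball x r ∩ Ω, ENNReal.ofReal (V y) ^ p
      ≤ ENNReal.ofReal (c ^ p * r ^ (3 - 2 * p))

/-- The locally integrable functions `W i j` are the distributional derivatives `∂ⱼ wᵢ` in `Ω`. -/
def IsWeakGrad (Ω : Set R3) (w : R3 → R3) (W : Fin 3 → Fin 3 → R3 → ℝ) : Prop :=
  (∀ i j, LocallyIntegrableOn (W i j) Ω) ∧
  ∀ ψ : R3 → ℝ, ContDiff ℝ ∞ ψ → HasCompactSupport ψ → tsupport ψ ⊆ Ω → ∀ i j,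
    ∫ x in Ω, ⟪e i, w x⟫_ℝ * fderiv ℝ ψ x (e j) = -∫ x in Ω, W i j x * ψ x

/-- `v = a + w` in `Ω`, where `a` satisfies the Morrey condition with the constant `c₁ ν`, and
`ξ·∇w ξ ≥ -(V + β) |ξ|²`, where `V` satisfies the Morrey condition with the constant `c₂ ν`, at the
scales up to `ρ`. -/
def OneSided {Ω : Set R3} (p c₁ c₂ ν ρ β : ℝ) (v : L2 Ω R3) : Prop :=
  ∃ (a : R3 → R3) (V : R3 → ℝ) (W : Fin 3 → Fin 3 → R3 → ℝ),
    SmallField Ω p (c₁ * ν) ρ a ∧ SmallPotential Ω p (c₂ * ν) ρ V ∧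
    IsWeakGrad Ω (fun x => v.fn x - a x) W ∧
    ∀ᵐ x ∂(volume.restrict Ω), ∀ ξ : R3,
      -((V x + β) * ‖ξ‖ ^ 2) ≤ ∑ i, ∑ j, W i j x * (⟪e i, ξ⟫_ℝ * ⟪e j, ξ⟫_ℝ)

/-- The explicit constant in the Fefferman-Phong inequality. -/
noncomputable def kappa (p : ℝ) : ℝ := 2048 * (p / (p - 1))

end Pool.Agent.R211.FP
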