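import Pool.Agent.R211.FP.Ft
import Pool.Agent.R211.FP.PubDef
import Pool.Agent.TH340.FF.LH2

/-!
The form inequality for Leray-Hopf solutions, and the criterion.
-/

set_option autoImplicit false

open MeasureTheory Set Filter Topology
open scoped InnerProductSpace ENNReal ContDiff

namespace Pool.Agent.R211.FP

section graph

open H772R2.NS Pool.Agent.TH340.FF

variable {Ω : Set E3}

/-- The form inequality. -/
theorem form_graph {p : ℝ} (hp : 1 < p) (hΩ : MeasurableSet Ω) (hb : Bornology.IsBounded Ω)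
    {ν c₁ c₂ ρ β : ℝ} (hν : 0 < ν) (hc₁ : 0 < c₁) (hc₂ : 0 < c₂) (hρ : 0 < ρ)
    {a : E3 → E3} (ha : Measurable a) {v : E3 → ℝ} (hv : Measurable v)
    {W : Fin 3 → Fin 3 → E3 → ℝ} (hW : ∀ i j, LocallyIntegrableOn (W i j) Ω)
    {U : L2V Ω} {G : L2M Ω} (hU : (U, G) ∈ graphW Ω)
    (hMa : ∀ x : E3, ∀ r : ℝ, 0 < r → r ≤ ρ → ∫⁻ y in Metric.ball x r ∩ Ω, ‖a y‖ₑ ^ (2 * p)
      ≤ ENNReal.ofReal ((c₁ * ν) ^ (2 * p) * r ^ (3 - 2 * p)))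
    (hMv : ∀ x : E3, ∀ r : ℝ, 0 < r → r ≤ ρ →
      ∫⁻ y in Metric.ball x r ∩ Ω, ENNReal.ofReal (v y) ^ p
        ≤ ENNReal.ofReal ((c₂ * ν) ^ p * r ^ (3 - 2 * p)))
    (hw : ∀ ψ : E3 → ℝ, ContDiff ℝ ∞ ψ → HasCompactSupport ψ → tsupport ψ ⊆ Ω → ∀ i j,
      ∫ x in Ω, ((U x) i - (a x) i) * fderiv ℝ ψ x (ev j) = -∫ x in Ω, W i j x * ψ x)
    (hs : ∀ᵐ x ∂(volume.restrict Ω), ∀ ξ : E3,
      -((v x + β) * ‖ξ‖ ^ 2) ≤ ∑ i, ∑ j, W i j x * (ξ i * ξ j))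
    {q : L2V Ω × L2M Ω} (hq : q ∈ graphW Ω) :
    -⟪tensL q.1, G⟫_ℝ ≤ (kap p * c₁ + kap p ^ 2 * c₂) * ν * ‖q.2‖ ^ 2
      + ((kap p * c₁ + kap p ^ 2 * c₂) * ν / ρ ^ 2 + β) * ‖q.1‖ ^ 2 := by
  set θ := kap p * c₁ + kap p ^ 2 * c₂ with hθ
  have key := graphW_le (fun q => -⟪tensL q.1, G⟫_ℝ - θ * ν * ‖q.2‖ ^ 2
    - (θ * ν / ρ ^ 2 + β) * ‖q.1‖ ^ 2) (form_cont hΩ G _ _) (fun r hr => ?_) hq
  · linarith
  have hrW := preW_le hr
  obtain ⟨φ, h1, h2, h3⟩ := hr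
  have t1 := int_f1 hΩ h1 hrW h2 hU
  have t3 := form_test hp hΩ hb hν hc₁ hc₂ hρ ha hv hW U hMa hMv hw hs h1
  rw [t1, ← norm_test1 h1 h2, ← norm_test2 h1 h3, ← hθ] at t3
  have e1 : θ * ν * (‖r.2‖ ^ 2 + 1 / ρ ^ 2 * ‖r.1‖ ^ 2) + β * ‖r.1‖ ^ 2
      = θ * ν * ‖r.2‖ ^ 2 + (θ * ν / ρ ^ 2 + β) * ‖r.1‖ ^ 2 := by ring
  rw [e1] at t3
  linarith

end graph

open H772R2.NS.Pub Pool.Agent.W795.TQ Pool.Agent.TH340.FF
open Pool.Agent.W795.ES (stretch)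

/-- the public form -/
theorem pub_form {Ω : Set R3} (hΩ : IsOpen Ω) (hb : Bornology.IsBounded Ω) {p c₁ c₂ ν ρ β : ℝ}
    (hp : 1 < p) (hν : 0 < ν) (hc₁ : 0 < c₁) (hc₂ : 0 < c₂) (hρ : 0 < ρ)
    {U : L2 Ω R3} {G : L2 Ω Mat} (hU : (U, G) ∈ H1graph Ω) (hs : OneSided p c₁ c₂ ν ρ β U)
    {q : L2 Ω R3 × L2 Ω Mat} (hq : q ∈ H1graph Ω) :
    -stretch G q.1 ≤ (kappa p * c₁ + kappa p ^ 2 * c₂) * ν * ‖q.2‖ ^ 2
      + ((kappa p * c₁ + kappa p ^ 2 * c₂) * ν / ρ ^ 2 + β) * ‖q.1‖ ^ 2 := by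
  have hm : MeasurableSet (show Set H772R2.NS.E3 from Ω) :=
    IsOpen.measurableSet (α := H772R2.NS.E3) hΩ
  rw [stretch_tens hm G hq]
  obtain ⟨a, V, W, ⟨ha1, ha2⟩, ⟨hV1, hV2⟩, ⟨hW1, hW2⟩, h4⟩ := hs
  refine form_graph (Ω := (show Set H772R2.NS.E3 from Ω)) hp hm hb hν hc₁ hc₂ hρ
    (a := (a : H772R2.NS.E3 → H772R2.NS.E3)) ha1 (v := (V : H772R2.NS.E3 → ℝ)) hV1
    (W := (W : Fin 3 → Fin 3 → H772R2.NS.E3 → ℝ)) hW1 (mem_pub.mpr hU) ha2 hV2 ?_ ?_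
    (mem_pub.mpr hq)
  · intro ψ h1 h2 h3 i j
    refine Eq.trans ?_ (hW2 ψ h1 h2 h3 i j)
    refine integral_congr_ae (Eventually.of_forall fun x => ?_)
    simp only
    congr 1
    refine Eq.trans ?_ (H772R2.NS.Pub.inner_e i (show H772R2.NS.E3 from (L2.fn U x - a x))).symm
    rfl
  · filter_upwards [h4] with x hx
    intro ξ
    refine (hx ξ).trans (le_of_eq ?_)
    refine Finset.sum_congr rfl fun i _ => Finset.sum_congr rfl fun j _ => ?_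
    congr 1
    congr 1
    · exact H772R2.NS.Pub.inner_e i ξ
    · exact H772R2.NS.Pub.inner_e j ξ

/-- **A general criterion in terms of the form inequality.** -/
theorem main_gen (Ω : Set R3) (hΩ : IsOpen Ω) (hb : Bornology.IsBounded Ω) (ν T : ℝ) (hν : 0 < ν)
    (hT : 0 < T) (F F' : ℝ → L2 Ω Mat) (hF : IsH1 T F F')
    (u : ℝ → L2 Ω R3) (G : ℝ → L2 Ω Mat) (L : IsLerayHopf Ω ν T F u G)
    (z0 : L2 Ω Mat) (h0 : (u 0, z0) ∈ H1graph Ω)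
    (hg : ∃ g : L2 Ω R3, ∀ φ, IsTest Ω φ → rhs ν (u 0) z0 (F 0) φ = ∫ x in Ω, ⟪g.fn x, φ x⟫_ℝ) :
    (∃ u' G1 G', IsStrong Ω ν T F u u' G1 G') ∨
    ∃ τ ∈ Ioc 0 T, (∀ t ∈ Ioo 0 τ, ∃ u' G1 G', IsStrong Ω ν t F u u' G1 G') ∧
      (∀ᵐ t ∂(volume.restrict (Ioc 0 τ)), (u t, G t) ∈ H1graph Ω) ∧
      ∀ θ : ℝ, 0 ≤ θ → θ < 1 → ∀ s ∈ Ico 0 τ, ∃ M : ℝ, ∀ β : ℝ → ℝ,
        (∀ t, 0 ≤ β t) → (∀ t ∈ Ioo s τ, IntervalIntegrable β volume s t) →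
        (∀ᵐ t ∂(volume.restrict (Ioo s τ)), ∀ p ∈ H1graph Ω,
          -stretch (G t) p.1 ≤ θ * ν * ‖p.2‖ ^ 2 + β t * ‖p.1‖ ^ 2) →
        ∀ t0 < τ, ∃ t ∈ Ioo t0 τ, s < t ∧
          3 / 4 * Real.log (1 / (τ - t)) - M ≤ ∫ r in s..t, β r := by
  rcases Pool.Agent.Results.MP_fd8964_an.EnergyStability.result Ω hΩ hb ν T hν hT F F' hF u G L
    z0 h0 hg with h1 | ⟨τ, hτ, h1, h2⟩
  · exact Or.inl h1
  have hgT : ∀ᵐ t ∂(volume.restrict (Ioc 0 τ)), (u t, G t) ∈ H1graph Ω := by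
    have := L.grad
    exact ae_mono (Measure.restrict_mono (Ioc_subset_Ioc_right hτ.2) le_rfl) this
  refine Or.inr ⟨τ, hτ, h1, hgT, fun θ hθ0 hθ1 s hs => ?_⟩
  set δ := (1 - θ) / 2 with hδ
  have hδ0 : 0 < δ := by rw [hδ]; linarith
  have hm : MeasurableSet (show Set H772R2.NS.E3 from Ω) :=
    IsOpen.measurableSet (α := H772R2.NS.E3) hΩ
  -- the bound before the time `s`
  obtain ⟨Cs, hCs0, hCs⟩ : ∃ C : ℝ, 0 ≤ C ∧ ∀ᵐ t ∂(volume.restrict (Ioc 0 s)), ∀ p ∈ H1graph Ω,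
      -stretch (G t) p.1 ≤ (1 - δ) * ν * ‖p.2‖ ^ 2 + C * ‖p.1‖ ^ 2 := by
    rcases eq_or_lt_of_le hs.1 with h3 | h3
    · refine ⟨0, le_rfl, ?_⟩
      rw [← h3]
      simp
    · obtain ⟨u', G1, G', hst⟩ := h1 s ⟨h3, hs.2⟩
      obtain ⟨M₁, hM₁⟩ := grad_bdd hΩ hst
        (ae_mono (Measure.restrict_mono (Ioc_subset_Ioc_right hs.2.le) le_rfl) hgT)
      obtain ⟨C, hC, hC2⟩ := grad_form (Ω := (show Set H772R2.NS.E3 from Ω)) hm (M := M₁)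
        (ε := (1 - δ) * ν) (by
          have : 0 < 1 - δ := by rw [hδ]; linarith
          positivity)
      refine ⟨C, hC, ?_⟩
      filter_upwards [hM₁] with t ht p hp
      rw [stretch_tens hm (G t) hp]
      exact hC2 (G t) ht p (mem_pub.mpr hp)
  obtain ⟨Mc, hMc⟩ := h2 0 (fun j => j.elim0) (fun j => j.elim0) δ hδ0 s hs
  refine ⟨Mc, fun β hβ0 hβi hyp t0 ht0 => ?_⟩
  set Λ : ℝ → ℝ := fun t => if t ≤ s then Cs else β t with hΛ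
  have hΛ0 : ∀ t, 0 ≤ Λ t := fun t => by
    simp only [hΛ]
    split_ifs
    · exact hCs0
    · exact hβ0 t
  have hΛs : ∀ t, s ≤ t → EqOn β Λ (Ioc s t) := fun t _ r hr => by
    simp only [hΛ]
    rw [if_neg (not_le.2 hr.1)]
  have hΛi : ∀ t ∈ Ioo 0 τ, IntervalIntegrable Λ volume 0 t := by
    intro t ht
    have i1 : ∀ a b, a ≤ b → b ≤ s → IntervalIntegrable Λ volume a b := fun a b hab hb => by
      have : IntervalIntegrable (fun _ : ℝ => Cs) volume a b := intervalIntegrable_const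
      refine this.congr fun r hr => ?_
      rw [uIoc_of_le hab] at hr
      simp only [hΛ]
      rw [if_pos (hr.2.trans hb)]
    rcases le_or_gt t s with h3 | h3
    · exact i1 0 t ht.1.le h3
    · refine (i1 0 s hs.1 le_rfl).trans ?_
      refine (hβi t ⟨h3, ht.2⟩).congr fun r hr => ?_
      rw [uIoc_of_le h3.le] at hr
      exact hΛs t h3.le hr
  obtain ⟨t, ht, hst, hlog⟩ := hMc Λ hΛ0 hΛi (by
    have a1 : ∀ᵐ t ∂(volume : Measure ℝ), t ∈ Ioc 0 s → ∀ p ∈ H1graph Ω,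
        -stretch (G t) p.1 ≤ (1 - δ) * ν * ‖p.2‖ ^ 2 + Cs * ‖p.1‖ ^ 2 :=
      (ae_restrict_iff' measurableSet_Ioc).1 hCs
    have a2 : ∀ᵐ t ∂(volume : Measure ℝ), t ∈ Ioo s τ → ∀ p ∈ H1graph Ω,
        -stretch (G t) p.1 ≤ θ * ν * ‖p.2‖ ^ 2 + β t * ‖p.1‖ ^ 2 :=
      (ae_restrict_iff' measurableSet_Ioo).1 hyp
    have a3 : ∀ᵐ t ∂(volume : Measure ℝ), t ≠ τ := by simp [ae_iff, measure_singleton]
    rw [ae_restrict_iff' measurableSet_Ioc]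
    filter_upwards [a1, a2, a3] with t b1 b2 b3 ht p hp _
    by_cases hts : t ≤ s
    · have e1 : Λ t = Cs := by simp only [hΛ]; rw [if_pos hts]
      rw [e1]
      exact b1 ⟨ht.1, hts⟩ p hp
    · have e1 : Λ t = β t := by simp only [hΛ]; rw [if_neg hts]
      rw [e1]
      have h4 := b2 ⟨not_le.1 hts, lt_of_le_of_ne ht.2 b3⟩ p hp
      refine h4.trans ?_
      have h5 : θ ≤ 1 - δ := by rw [hδ]; linarith
      have h6 : θ * ν * ‖p.2‖ ^ 2 ≤ (1 - δ) * ν * ‖p.2‖ ^ 2 := by gcongr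
      linarith) t0 ht0
  refine ⟨t, ht, hst, ?_⟩
  have e2 : ∫ r in s..t, Λ r = ∫ r in s..t, β r := by
    refine intervalIntegral.integral_congr_ae ?_
    refine Eventually.of_forall fun r hr => ?_
    rw [uIoc_of_le hst.le] at hr
    exact (hΛs t hst.le hr).symm
  rwa [e2] at hlog

/-- the rate `γ / (τ - t)` with `γ < 3/4` is impossible -/
theorem explicit_gen {τ : ℝ} (hτ : 0 < τ) {Q : (ℝ → ℝ) → ℝ → Prop}
    (hQ : ∀ s ∈ Ico 0 τ, ∃ M : ℝ, ∀ β : ℝ → ℝ,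
        (∀ t, 0 ≤ β t) → (∀ t ∈ Ioo s τ, IntervalIntegrable β volume s t) →
        (∀ᵐ t ∂(volume.restrict (Ioo s τ)), Q β t) →
        ∀ t0 < τ, ∃ t ∈ Ioo t0 τ, s < t ∧
          3 / 4 * Real.log (1 / (τ - t)) - M ≤ ∫ r in s..t, β r)
    {γ t1 : ℝ} (hγ0 : 0 ≤ γ) (hγ : γ < 3 / 4) (ht1 : t1 < τ)
    (hyp : ∀ᵐ t ∂(volume.restrict (Ioo t1 τ)), Q (fun t => γ / |τ - t|) t) : False := by
  set s := max t1 0 with hs
  have hsτ : s < τ := max_lt ht1 hτ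
  have hs0 : 0 ≤ s := le_max_right _ _
  obtain ⟨M, hM⟩ := hQ s ⟨hs0, hsτ⟩
  set β : ℝ → ℝ := fun t => γ / |τ - t| with hβ
  have hβc : ∀ t ∈ Ioo s τ, ContinuousOn β (uIcc s t) := by
    intro t ht
    rw [uIcc_of_le ht.1.le]
    refine continuousOn_const.div (continuous_const.sub continuous_id).abs.continuousOn
      fun r hr => ?_
    have : 0 < τ - r := by linarith [hr.2, ht.2]
    exact abs_ne_zero.2 this.ne'
  have h1 := hM β (fun t => by simp only [hβ]; positivity)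
    (fun t ht => (hβc t ht).intervalIntegrable)
    (ae_mono (Measure.restrict_mono (Ioo_subset_Ioo_left (le_max_left _ _)) le_rfl) hyp)
  -- the integral of `β`
  have hint : ∀ t ∈ Ioo s τ, ∫ r in s..t, β r
      = γ * (Real.log (1 / (τ - t)) - Real.log (1 / (τ - s))) := by
    intro t ht
    have hder : ∀ r ∈ uIcc s t, HasDerivAt (fun r => γ * Real.log (1 / (τ - r))) (β r) r := by
      intro r hr
      rw [uIcc_of_le ht.1.le] at hr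
      have hp : 0 < τ - r := by linarith [hr.2, ht.2]
      have e1 : (fun r => γ * Real.log (1 / (τ - r))) = fun r => γ * -Real.log (τ - r) := by
        funext r
        rw [one_div, Real.log_inv]
      rw [e1]
      refine (((((hasDerivAt_id r).const_sub τ).log hp.ne').neg).const_mul γ).congr_deriv ?_
      simp only [hβ]
      rw [abs_of_pos hp]
      simp only [id]
      ring
    rw [intervalIntegral.integral_eq_sub_of_hasDerivAt hder (hβc t ht).intervalIntegrable]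
    ring
  -- a time at which the logarithm is large
  set A := (|M| + γ * |Real.log (1 / (τ - s))| + 1) / (3 / 4 - γ) with hA
  have hgp : 0 < 3 / 4 - γ := by linarith
  obtain ⟨t, ht, hst, hle⟩ := h1 (τ - Real.exp (-A)) (by linarith [Real.exp_pos (-A)])
  rw [hint t ⟨hst, ht.2⟩] at hle
  have hp : 0 < τ - t := by linarith [ht.2]
  have h3 : A < Real.log (1 / (τ - t)) := by
    rw [one_div, Real.log_inv, lt_neg, Real.log_lt_iff_lt_exp hp]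
    linarith [ht.1]
  have h4 : (3 / 4 - γ) * A = |M| + γ * |Real.log (1 / (τ - s))| + 1 := by
    rw [hA, mul_comm, div_mul_cancel₀ _ hgp.ne']
  have h5 : (3 / 4 - γ) * A < (3 / 4 - γ) * Real.log (1 / (τ - t)) :=
    mul_lt_mul_of_pos_left h3 hgp
  have h6 := le_abs_self M
  have h7 : -(γ * Real.log (1 / (τ - s))) ≤ γ * |Real.log (1 / (τ - s))| := by
    rw [← mul_neg]
    exact mul_le_mul_of_nonneg_left (neg_le_abs _) hγ0
  nlinarith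

end Pool.Agent.R211.FP
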