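import Pool.Agent.R211.FP.Dy

/-!
The Poincare inequality for dyadic averages.
-/

set_option autoImplicit false

open MeasureTheory Set Filter Topology
open scoped ENNReal

namespace Pool.Agent.R211.FP

lemma lint_affine {F : X → ℝ≥0∞} (hF : Measurable F) {r : ℝ} (hr : 1 / 2 ≤ r) (c : X) :
    ∫⁻ z, F (r • z + c) ≤ 8 * ∫⁻ z, F z := by
  have hr0 : 0 < r := by linarith
  have h1 : ∫⁻ z, F (r • z + c) = ∫⁻ w, F (w + c) ∂(Measure.map (fun z : X => r • z) volume) :=
    (lintegral_map (f := fun w => F (w + c)) (hF.comp (measurable_add_const c))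
      (measurable_const_smul r)).symm
  rw [h1, Measure.map_addHaar_smul volume hr0.ne', lintegral_smul_measure,
    lintegral_add_right_eq_self]
  rw [Module.finrank_fin_fun, smul_eq_mul]
  gcongr
  rw [show (8 : ℝ≥0∞) = ENNReal.ofReal 8 by norm_num]
  refine ENNReal.ofReal_le_ofReal ?_
  have h2 : (1 / 2 : ℝ) ^ 3 ≤ r ^ 3 := by gcongr
  rw [abs_of_pos (by positivity)]
  have h3 : (r ^ 3)⁻¹ ≤ ((1 / 2 : ℝ) ^ 3)⁻¹ := inv_anti₀ (by positivity) h2
  norm_num at h3
  exact h3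

lemma lint_affine' {F : X → ℝ≥0∞} (hF : Measurable F) {r : ℝ} (hr : 1 / 2 ≤ r) (c : X)
    {S Q : Set X} (hS : MeasurableSet S) (hQ : MeasurableSet Q) (hSQ : ∀ z ∈ S, r • z + c ∈ Q) :
    ∫⁻ z in S, F (r • z + c) ≤ 8 * ∫⁻ z in Q, F z := by
  rw [← lintegral_indicator hQ]
  refine le_trans ?_ (lint_affine (hF.indicator hQ) hr c)
  rw [← lintegral_indicator hS]
  refine lintegral_mono fun z => ?_
  by_cases hz : z ∈ S
  · rw [indicator_of_mem hz, indicator_of_mem (hSQ z hz)]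
  · rw [indicator_of_notMem hz]
    exact zero_le

/-- the fundamental theorem of calculus along a segment -/
lemma seg_le {h : X → ℝ} (hh : ContDiff ℝ 1 h) (y z : X) :
    ENNReal.ofReal (h y) ≤ ENNReal.ofReal (h z)
      + ‖y - z‖ₑ * ∫⁻ s in Ioc (0 : ℝ) 1, ‖fderiv ℝ h (z + s • (y - z))‖ₑ := by
  have hd : ∀ s : ℝ, HasDerivAt (fun s : ℝ => h (z + s • (y - z)))
      (fderiv ℝ h (z + s • (y - z)) (y - z)) s := by
    intro s
    have h1 : HasFDerivAt h (fderiv ℝ h (z + s • (y - z))) (z + s • (y - z)) :=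
      (hh.differentiable (by norm_num) _).hasFDerivAt
    have h2 : HasDerivAt (fun s : ℝ => z + s • (y - z)) (y - z) s := by
      have := ((hasDerivAt_id s).smul_const (y - z)).const_add z
      simpa using this
    exact h1.comp_hasDerivAt s h2
  have hcont : Continuous fun s : ℝ => fderiv ℝ h (z + s • (y - z)) :=
    (hh.continuous_fderiv (by norm_num)).comp (by fun_prop)
  have hc2 : Continuous fun s : ℝ => fderiv ℝ h (z + s • (y - z)) (y - z) :=
    hcont.clm_apply continuous_const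
  have h3 : h y - h z = ∫ s in (0 : ℝ)..1, fderiv ℝ h (z + s • (y - z)) (y - z) := by
    rw [intervalIntegral.integral_eq_sub_of_hasDerivAt (fun s _ => hd s)
      (hc2.intervalIntegrable _ _)]
    simp
  have h4 : ENNReal.ofReal (h y - h z)
      ≤ ‖y - z‖ₑ * ∫⁻ s in Ioc (0 : ℝ) 1, ‖fderiv ℝ h (z + s • (y - z))‖ₑ := by
    refine (Real.ofReal_le_enorm _).trans ?_
    rw [h3, intervalIntegral.integral_of_le zero_le_one]
    refine (enorm_integral_le_lintegral_enorm _).trans ?_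
    rw [← lintegral_const_mul _ hcont.measurable.enorm]
    refine lintegral_mono fun s => ?_
    rw [mul_comm]
    exact ContinuousLinearMap.le_opENorm _ _
  calc ENNReal.ofReal (h y) = ENNReal.ofReal (h z + (h y - h z)) := by congr 1; ring
    _ ≤ ENNReal.ofReal (h z) + ENNReal.ofReal (h y - h z) := ENNReal.ofReal_add_le
    _ ≤ _ := by gcongr

/-- **The Poincare inequality.** -/
theorem E_succ_le {h : X → ℝ} (hh : ContDiff ℝ 1 h) (k : ℕ) (x : X) :
    E (k + 1) (fun y => ENNReal.ofReal (h y)) x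
      ≤ E k (fun y => ENNReal.ofReal (h y)) x
        + 64 * ((2 ^ k)⁻¹ * E k (fun y => ‖fderiv ℝ h y‖ₑ) x) := by
  set Q' := Qc (k + 1) (ix (k + 1) x) with hQ'
  set Q := Qc k (ix k x) with hQ
  have hsub : Q' ⊆ Q := Qc_sub (Nat.le_succ k) x
  have hQm : MeasurableSet Q := Qc_meas _ _
  have hQm' : MeasurableSet Q' := Qc_meas _ _
  have hconv : Convex ℝ Q := Qc_convex _ _
  have hHm : Measurable fun y => ENNReal.ofReal (h y) := hh.continuous.measurable.ennreal_ofReal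
  set G : X → ℝ≥0∞ := fun y => ‖fderiv ℝ h y‖ₑ with hG
  have hGm : Measurable G := (hh.continuous_fderiv (by norm_num)).measurable.enorm
  have hnorm : ∀ y ∈ Q', ∀ z ∈ Q, ‖y - z‖ₑ ≤ ((2 : ℝ≥0∞) ^ k)⁻¹ := by
    intro y hy z hz
    have h1 := norm_le k (ix k x) (hsub hy) hz
    rw [← ofReal_norm_eq_enorm]
    refine (ENNReal.ofReal_le_ofReal h1).trans (le_of_eq ?_)
    rw [ENNReal.ofReal_inv_of_pos (by positivity), ENNReal.ofReal_pow (by norm_num)]
    norm_num
  -- the triple integral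
  set T : ℝ≥0∞ := ∫⁻ z in Q, ∫⁻ y in Q', ∫⁻ s in Ioc (0 : ℝ) 1, G (z + s • (y - z)) with hT
  have hGp : Measurable fun q : (X × X) × ℝ => G (q.1.1 + q.2 • (q.1.2 - q.1.1)) :=
    hGm.comp (by fun_prop)
  have hT1 : T = ∫⁻ s in Ioc (0 : ℝ) 1, ∫⁻ z in Q, ∫⁻ y in Q', G (z + s • (y - z)) := by
    have a1 : ∀ z, ∫⁻ y in Q', ∫⁻ s in Ioc (0 : ℝ) 1, G (z + s • (y - z))
        = ∫⁻ s in Ioc (0 : ℝ) 1, ∫⁻ y in Q', G (z + s • (y - z)) := by
      intro z
      refine lintegral_lintegral_swap ?_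
      refine Measurable.aemeasurable ?_
      exact hGm.comp (by fun_prop)
    rw [hT]
    simp only [a1]
    refine lintegral_lintegral_swap ?_
    refine Measurable.aemeasurable ?_
    have a2 : Measurable fun q : (X × ℝ) × X => G (q.1.1 + q.1.2 • (q.2 - q.1.1)) :=
      hGm.comp (by fun_prop)
    exact a2.lintegral_prod_right'
  have hT2 : (8 : ℝ≥0∞) ^ k * (8 ^ (k + 1) * T) ≤ 64 * E k G x := by
    have b1 : ∀ s ∈ Ioc (0 : ℝ) 1, ∫⁻ z in Q, ∫⁻ y in Q', G (z + s • (y - z))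
        ≤ 8 * ((8 ^ k)⁻¹ * ∫⁻ z in Q, G z) := by
      intro s hs
      rcases le_total s (1 / 2) with h1 | h1
      · have c1 : ∫⁻ z in Q, ∫⁻ y in Q', G (z + s • (y - z))
            = ∫⁻ y in Q', ∫⁻ z in Q, G ((1 - s) • z + s • y) := by
          rw [lintegral_lintegral_swap]
          · refine lintegral_congr fun y => lintegral_congr fun z => ?_
            congr 1
            module
          · refine Measurable.aemeasurable ?_
            exact hGm.comp (by fun_prop)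
        rw [c1]
        have c2 : ∀ y ∈ Q', ∫⁻ z in Q, G ((1 - s) • z + s • y) ≤ 8 * ∫⁻ z in Q, G z := by
          intro y hy
          refine lint_affine' hGm (by linarith) _ hQm hQm fun z hz => ?_
          exact hconv hz (hsub hy) (by linarith [hs.2]) hs.1.le (by ring)
        refine (setLIntegral_mono' hQm' c2).trans ?_
        rw [setLIntegral_const, hQ', vol_Qc]
        have c3 : ((8 : ℝ≥0∞) ^ (k + 1))⁻¹ ≤ (8 ^ k)⁻¹ := by
          refine ENNReal.inv_le_inv.2 ?_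
          exact pow_le_pow_right₀ (by norm_num) (Nat.le_succ k)
        calc 8 * (∫⁻ z in Q, G z) * ((8 : ℝ≥0∞) ^ (k + 1))⁻¹
            ≤ 8 * (∫⁻ z in Q, G z) * (8 ^ k)⁻¹ := by gcongr
          _ = _ := by ring
      · have c2 : ∀ z ∈ Q, ∫⁻ y in Q', G (z + s • (y - z)) ≤ 8 * ∫⁻ z in Q, G z := by
          intro z hz
          have c4 : ∀ y, z + s • (y - z) = s • y + (1 - s) • z := fun y => by module
          simp only [c4]
          refine lint_affine' hGm h1 _ hQm' hQm fun y hy => ?_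
          exact hconv (hsub hy) hz hs.1.le (by linarith [hs.2]) (by ring)
        refine (setLIntegral_mono' hQm c2).trans ?_
        rw [setLIntegral_const, hQ, vol_Qc]
        exact le_of_eq (by ring)
    have b2 : T ≤ 8 * ((8 ^ k)⁻¹ * ∫⁻ z in Q, G z) := by
      rw [hT1]
      refine (setLIntegral_mono' measurableSet_Ioc b1).trans ?_
      rw [setLIntegral_const, Real.volume_Ioc]
      simp
    have b3 : (8 : ℝ≥0∞) ^ k * (8 ^ k)⁻¹ = 1 := ENNReal.mul_inv_cancel (pow8_ne k) (pow8_top k)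
    calc (8 : ℝ≥0∞) ^ k * (8 ^ (k + 1) * T)
        ≤ (8 : ℝ≥0∞) ^ k * (8 ^ (k + 1) * (8 * ((8 ^ k)⁻¹ * ∫⁻ z in Q, G z))) := by gcongr
      _ = (8 : ℝ≥0∞) ^ k * (8 ^ k)⁻¹ * (64 * (8 ^ k * ∫⁻ z in Q, G z)) := by
          rw [pow_succ]
          ring
      _ = 64 * E k G x := by rw [b3, one_mul]; rfl
  -- the comparison
  have hc1 : ∫⁻ y in Q', ENNReal.ofReal (h y)
      = 8 ^ k * ∫⁻ _ in Q, ∫⁻ y in Q', ENNReal.ofReal (h y) := by
    rw [setLIntegral_const, hQ, vol_Qc, mul_comm _ ((8 ^ k)⁻¹ : ℝ≥0∞), ← mul_assoc,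
      ENNReal.mul_inv_cancel (pow8_ne k) (pow8_top k), one_mul]
  have hc2 : ∫⁻ _ in Q, ∫⁻ y in Q', ENNReal.ofReal (h y)
      ≤ ((8 ^ (k + 1))⁻¹ * ∫⁻ z in Q, ENNReal.ofReal (h z)) + (2 ^ k)⁻¹ * T := by
    have d1 : ∀ z ∈ Q, ∫⁻ y in Q', ENNReal.ofReal (h y)
        ≤ (8 ^ (k + 1))⁻¹ * ENNReal.ofReal (h z)
          + (2 ^ k)⁻¹ * ∫⁻ y in Q', ∫⁻ s in Ioc (0 : ℝ) 1, G (z + s • (y - z)) := by
      intro z hz
      have d2 : ∀ y ∈ Q', ENNReal.ofReal (h y) ≤ ENNReal.ofReal (h z)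
          + (2 ^ k)⁻¹ * ∫⁻ s in Ioc (0 : ℝ) 1, G (z + s • (y - z)) := by
        intro y hy
        refine (seg_le hh y z).trans ?_
        gcongr
        exact hnorm y hy z hz
      refine (setLIntegral_mono' hQm' d2).trans ?_
      rw [lintegral_add_left measurable_const, setLIntegral_const, hQ', vol_Qc,
        lintegral_const_mul]
      · rw [mul_comm (ENNReal.ofReal (h z))]
      · have a2 : Measurable fun q : X × ℝ => G (z + q.2 • (q.1 - z)) :=
          hGm.comp (by fun_prop)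
        exact a2.lintegral_prod_right'
    refine (setLIntegral_mono' hQm d1).trans ?_
    rw [lintegral_add_left (hHm.const_mul _), lintegral_const_mul _ hHm, lintegral_const_mul]
    have a2 : Measurable fun q : (X × X) × ℝ => G (q.1.1 + q.2 • (q.1.2 - q.1.1)) := hGp
    have a3 : Measurable fun q : X × X => ∫⁻ s in Ioc (0 : ℝ) 1, G (q.1 + s • (q.2 - q.1)) :=
      a2.lintegral_prod_right'
    exact a3.lintegral_prod_right'
  have e8 : (8 : ℝ≥0∞) ^ (k + 1) * (8 ^ (k + 1))⁻¹ = 1 :=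
    ENNReal.mul_inv_cancel (pow8_ne _) (pow8_top _)
  calc E (k + 1) (fun y => ENNReal.ofReal (h y)) x
      = 8 ^ (k + 1) * ∫⁻ y in Q', ENNReal.ofReal (h y) := rfl
    _ = 8 ^ (k + 1) * (8 ^ k * ∫⁻ _ in Q, ∫⁻ y in Q', ENNReal.ofReal (h y)) := by rw [← hc1]
    _ ≤ 8 ^ (k + 1) * (8 ^ k * (((8 ^ (k + 1))⁻¹ * ∫⁻ z in Q, ENNReal.ofReal (h z))
          + (2 ^ k)⁻¹ * T)) := by gcongr
    _ = (8 ^ (k + 1) * (8 ^ (k + 1))⁻¹) * (8 ^ k * ∫⁻ z in Q, ENNReal.ofReal (h z))
          + (2 ^ k)⁻¹ * (8 ^ k * (8 ^ (k + 1) * T)) := by ring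
    _ ≤ 1 * (8 ^ k * ∫⁻ z in Q, ENNReal.ofReal (h z)) + (2 ^ k)⁻¹ * (64 * E k G x) := by
        rw [e8]
        gcongr
    _ = _ := by
        rw [one_mul]
        have : E k (fun y => ENNReal.ofReal (h y)) x
          = 8 ^ k * ∫⁻ z in Q, ENNReal.ofReal (h z) := rfl
        rw [this]
        ring

end Pool.Agent.R211.FP
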