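import Pool.Agent.R211.FP.PubDef

/-!
Public definition: velocities with a semibounded gradient, up to a part in a Morrey space.
-/

set_option autoImplicit false

open MeasureTheory Set
open scoped InnerProductSpace ENNReal ContDiff

namespace Pool.Agent.R211.FP

open H772R2.NS.Pub

/-- `v = a + w` in `Ω`, where `a` satisfies the Morrey condition with the constant `c`, the weak
gradient of `w` in `Ω` has trace zero, and `ξ·∇w ξ ≥ -(V + β) |ξ|²` for all `ξ` or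
`ξ·∇w ξ ≤ (V + β) |ξ|²` for all `ξ`, almost everywhere in `Ω`, where `V` satisfies the Morrey
condition with the constant `c`, at the scales up to `ρ`. -/
def SemiBounded {Ω : Set R3} (p c ρ β : ℝ) (v : L2 Ω R3) : Prop :=
  ∃ (a : R3 → R3) (V : R3 → ℝ) (W : Fin 3 → Fin 3 → R3 → ℝ),
    SmallField Ω p c ρ a ∧ SmallPotential Ω p c ρ V ∧
    IsWeakGrad Ω (fun x => v.fn x - a x) W ∧
    (∀ᵐ x ∂(volume.restrict Ω), ∑ i, W i i x = 0) ∧
    ((∀ᵐ x ∂(volume.restrict Ω), ∀ ξ : R3,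
        -((V x + β) * ‖ξ‖ ^ 2) ≤ ∑ i, ∑ j, W i j x * (⟪e i, ξ⟫_ℝ * ⟪e j, ξ⟫_ℝ)) ∨
      (∀ᵐ x ∂(volume.restrict Ω), ∀ ξ : R3,
        ∑ i, ∑ j, W i j x * (⟪e i, ξ⟫_ℝ * ⟪e j, ξ⟫_ℝ) ≤ (V x + β) * ‖ξ‖ ^ 2))

end Pool.Agent.R211.FP
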