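import Pool.Agent.R211.FP.Un

/-!
The Fefferman-Phong inequality at an arbitrary scale, in the euclidean space.
-/

set_option autoImplicit false

open MeasureTheory Set Filter Topology
open scoped ENNReal

namespace Pool.Agent.R211.FP

/-- The euclidean space. -/
abbrev Y3 := EuclideanSpace ℝ (Fin 3)

/-- the change of variables -/
lemma cov {F : Y3 → ℝ≥0∞} (hF : Measurable F) {s : ℝ} (hs : 0 < s) :
    ∫⁻ y : X, F (WithLp.toLp 2 (s • y)) = ENNReal.ofReal ((s ^ 3)⁻¹) * ∫⁻ w : Y3, F w := by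
  have hm : Measurable fun y : X => F (WithLp.toLp 2 y) :=
    hF.comp (PiLp.volume_preserving_toLp (Fin 3)).measurable
  have h1 : ∫⁻ y : X, F (WithLp.toLp 2 (s • y))
      = ∫⁻ y, F (WithLp.toLp 2 y) ∂(Measure.map (fun z : X => s • z) volume) :=
    (lintegral_map (f := fun y : X => F (WithLp.toLp 2 y)) hm (measurable_const_smul s)).symm
  rw [h1, Measure.map_addHaar_smul volume hs.ne', lintegral_smul_measure, Module.finrank_fin_fun,
    smul_eq_mul, abs_of_pos (by positivity)]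
  congr 1
  exact (PiLp.volume_preserving_toLp (Fin 3)).lintegral_comp hF

lemma norm_toLp_le (z : X) : ‖(WithLp.toLp 2 z : Y3)‖ ≤ √3 * ‖z‖ := by
  rw [EuclideanSpace.norm_eq]
  have h1 : ∀ i, ‖z i‖ ^ 2 ≤ ‖z‖ ^ 2 := fun i => by
    gcongr
    exact norm_le_pi_norm z i
  have h2 : ∑ i : Fin 3, ‖z i‖ ^ 2 ≤ 3 * ‖z‖ ^ 2 := by
    refine (Finset.sum_le_sum fun i _ => h1 i).trans (le_of_eq ?_)
    simp
  calc √(∑ i : Fin 3, ‖z i‖ ^ 2) ≤ √(3 * ‖z‖ ^ 2) := Real.sqrt_le_sqrt h2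
    _ = √3 * ‖z‖ := by rw [Real.sqrt_mul (by norm_num), Real.sqrt_sq (norm_nonneg _)]

/-- the averages from the bounds on balls -/
lemma E_of_balls {p : ℝ} (hp : 1 < p) {V : Y3 → ℝ≥0∞} (hV : Measurable V) {B ρ : ℝ} (hB : 0 ≤ B)
    (hρ : 0 < ρ) (hM : ∀ x : Y3, ∀ r : ℝ, 0 < r → r ≤ ρ →
      ∫⁻ y in Metric.ball x r, V y ^ p ≤ ENNReal.ofReal (B ^ p * r ^ (3 - 2 * p)))
    (k : ℕ) (x : X) :
    E k (fun y => V (WithLp.toLp 2 ((ρ / 2) • y)) ^ p) x
      ≤ (ENNReal.ofReal (8 * B / ρ ^ 2) * 4 ^ k) ^ p := by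
  set s := ρ / 2 with hs
  have hs0 : 0 < s := by positivity
  set c : Y3 := WithLp.toLp 2 (s • x) with hc
  set r : ℝ := ρ * (2 ^ k)⁻¹ with hr
  have h2k : (0 : ℝ) < 2 ^ k := by positivity
  have hr0 : 0 < r := by positivity
  have hrρ : r ≤ ρ := by
    rw [hr]
    have : ((2 : ℝ) ^ k)⁻¹ ≤ 1 := inv_le_one_of_one_le₀ (one_le_pow₀ (by norm_num))
    nlinarith
  have hVp : Measurable fun y => V y ^ p := hV.pow_const p
  have h1 : ∫⁻ y in Qc k (ix k x), V (WithLp.toLp 2 (s • y)) ^ p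
      ≤ ENNReal.ofReal ((s ^ 3)⁻¹) * ∫⁻ y in Metric.ball c r, V y ^ p := by
    rw [← lintegral_indicator measurableSet_ball,
      ← cov (hVp.indicator measurableSet_ball) hs0, ← lintegral_indicator (Qc_meas _ _)]
    refine lintegral_mono fun y => ?_
    by_cases hy : y ∈ Qc k (ix k x)
    · have hb : (WithLp.toLp 2 (s • y) : Y3) ∈ Metric.ball c r := by
        rw [mem_ball_iff_norm, hc, ← WithLp.toLp_sub, ← smul_sub]
        refine (norm_toLp_le _).trans_lt ?_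
        rw [norm_smul, Real.norm_of_nonneg hs0.le]
        have h3 := norm_le k (ix k x) hy (self_mem k x)
        have h4 : √3 < 2 := by
          rw [Real.sqrt_lt' (by norm_num)]
          norm_num
        have h5 : √3 * (s * ‖y - x‖) ≤ √3 * (s * (2 ^ k)⁻¹) := by gcongr
        refine h5.trans_lt ?_
        have h6 : 0 < s * ((2 : ℝ) ^ k)⁻¹ := by positivity
        have h7 : r = 2 * (s * (2 ^ k)⁻¹) := by
          rw [hr, hs]
          ring
        rw [h7]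
        exact mul_lt_mul_of_pos_right h4 h6
      rw [indicator_of_mem hy, indicator_of_mem hb]
    · rw [indicator_of_notMem hy]
      exact zero_le
  have h2 := hM c r hr0 hrρ
  have e8 : (8 : ℝ≥0∞) ^ k = ENNReal.ofReal ((2 ^ k) ^ 3) := by
    rw [ENNReal.ofReal_pow (by positivity), ENNReal.ofReal_pow (by norm_num), ← pow_mul,
      mul_comm k 3, pow_mul]
    norm_num
  have e4 : (4 : ℝ≥0∞) ^ k = ENNReal.ofReal ((2 ^ k) ^ 2) := by
    rw [ENNReal.ofReal_pow (by positivity), ENNReal.ofReal_pow (by norm_num), ← pow_mul,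
      mul_comm k 2, pow_mul]
    norm_num
  unfold E
  calc 8 ^ k * ∫⁻ y in Qc k (ix k x), V (WithLp.toLp 2 (s • y)) ^ p
      ≤ ENNReal.ofReal ((2 ^ k) ^ 3) * (ENNReal.ofReal ((s ^ 3)⁻¹)
        * ENNReal.ofReal (B ^ p * r ^ (3 - 2 * p))) := by
        rw [e8]
        gcongr
        exact h1.trans (by gcongr)
    _ = ENNReal.ofReal (((2 ^ k) ^ 3) * ((s ^ 3)⁻¹ * (B ^ p * r ^ (3 - 2 * p)))) := by
        rw [← ENNReal.ofReal_mul (by positivity), ← ENNReal.ofReal_mul (by positivity)]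
    _ ≤ ENNReal.ofReal ((8 * B / ρ ^ 2 * (2 ^ k) ^ 2) ^ p) := by
        refine ENNReal.ofReal_le_ofReal ?_
        have a1 : r ^ (3 - 2 * p) = r ^ 3 * (r ^ 2)⁻¹ ^ p := by
          rw [Real.rpow_sub hr0, Real.inv_rpow (by positivity), ← Real.rpow_natCast r 2,
            ← Real.rpow_mul hr0.le]
          norm_num
          rfl
        have a2 : ((2 : ℝ) ^ k) ^ 3 * ((s ^ 3)⁻¹ * (B ^ p * (r ^ 3 * (r ^ 2)⁻¹ ^ p)))
            = 8 * (B * (r ^ 2)⁻¹) ^ p := by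
          rw [Real.mul_rpow hB (by positivity)]
          rw [hr, hs]
          field_simp
          ring
        have a3 : 8 * B / ρ ^ 2 * (2 ^ k) ^ 2 = 8 * (B * (r ^ 2)⁻¹) := by
          rw [hr]
          field_simp
        have a5 : 0 ≤ B * (r ^ 2)⁻¹ := mul_nonneg hB (by positivity)
        rw [a1, a2, a3, Real.mul_rpow (by norm_num) a5]
        have a4 : (8 : ℝ) ≤ 8 ^ p := by
          calc (8 : ℝ) = 8 ^ (1 : ℝ) := (Real.rpow_one 8).symm
            _ ≤ 8 ^ p := Real.rpow_le_rpow_of_exponent_le (by norm_num) hp.le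
        exact mul_le_mul_of_nonneg_right a4 (Real.rpow_nonneg a5 p)
    _ = _ := by
        rw [← ENNReal.ofReal_rpow_of_nonneg (by positivity) (by linarith),
          ENNReal.ofReal_mul (by positivity), e4]

/-- **The Fefferman-Phong inequality.** -/
theorem scaled {p : ℝ} (hp : 1 < p) {V : Y3 → ℝ≥0∞} (hV : Measurable V) (hVt : ∀ x, V x ≠ ⊤)
    {B ρ : ℝ} (hB : 0 ≤ B) (hρ : 0 < ρ) (hM : ∀ x : Y3, ∀ r : ℝ, 0 < r → r ≤ ρ →
      ∫⁻ y in Metric.ball x r, V y ^ p ≤ ENNReal.ofReal (B ^ p * r ^ (3 - 2 * p)))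
    {f : Y3 → ℝ} (hf : ContDiff ℝ 1 f) (hfc : HasCompactSupport f) :
    ∫⁻ x, V x * ENNReal.ofReal (f x ^ 2)
      ≤ ENNReal.ofReal ((2048 * (p / (p - 1))) ^ 2 * B)
        * ((∫⁻ x, ‖fderiv ℝ f x‖ₑ ^ 2)
          + ENNReal.ofReal (1 / ρ ^ 2) * ∫⁻ x, ENNReal.ofReal (f x ^ 2)) := by
  have hp1 : 0 < p - 1 := by linarith
  set s := ρ / 2 with hs
  have hs0 : 0 < s := by positivity
  set T : X → Y3 := fun y => WithLp.toLp 2 (s • y) with hT
  have hTm : Measurable T := (PiLp.volume_preserving_toLp (Fin 3)).measurable.comp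
    (measurable_const_smul s)
  set L : X →L[ℝ] Y3 := (PiLp.continuousLinearEquiv 2 ℝ (fun _ : Fin 3 => ℝ)).symm.toContinuousLinearMap
    with hL
  have hTL : ∀ y, T y = (s • L) y := fun y => by
    rw [hT, hL]
    simp
  have hTd : ContDiff ℝ 1 T := by
    have : T = fun y => (s • L) y := funext hTL
    rw [this]
    exact (s • L).contDiff
  have hTc : ∀ y, HasFDerivAt T (s • L) y := fun y => by
    have : T = fun y => (s • L) y := funext hTL
    rw [this]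
    exact (s • L).hasFDerivAt
  set g : X → ℝ := fun y => f (T y) with hg
  have hgd : ContDiff ℝ 1 g := hf.comp hTd
  have hgc : HasCompactSupport g := by
    refine hfc.comp_isClosedEmbedding ?_
    have e1 : T = (PiLp.continuousLinearEquiv 2 ℝ (fun _ : Fin 3 => ℝ)).symm
        ∘ (Homeomorph.smulOfNeZero s hs0.ne') := by
      funext y
      simp [hT]
    rw [e1]
    exact (PiLp.continuousLinearEquiv 2 ℝ (fun _ : Fin 3 => ℝ)).symm.toHomeomorph.isClosedEmbedding.comp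
      (Homeomorph.smulOfNeZero s hs0.ne').isClosedEmbedding
  have key := unit_scale hp (V := fun y => V (T y)) (hV.comp hTm) (fun y => hVt _)
    (A := ENNReal.ofReal (8 * B / ρ ^ 2)) ENNReal.ofReal_ne_top
    (fun k x => E_of_balls hp hV hB hρ hM k x) hgd hgc
  have hfm : Measurable fun x => ENNReal.ofReal (f x ^ 2) :=
    (hf.continuous.pow 2).measurable.ennreal_ofReal
  have hdm : Measurable fun x => ‖fderiv ℝ f x‖ₑ ^ 2 :=
    (hf.continuous_fderiv (by norm_num)).measurable.enorm.pow_const _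
  have e1 : ∫⁻ y, V (T y) * ENNReal.ofReal (g y ^ 2)
      = ENNReal.ofReal ((s ^ 3)⁻¹) * ∫⁻ x, V x * ENNReal.ofReal (f x ^ 2) :=
    cov (F := fun x => V x * ENNReal.ofReal (f x ^ 2)) (hV.mul hfm) hs0
  have e2 : ∫⁻ y, ENNReal.ofReal (g y ^ 2)
      = ENNReal.ofReal ((s ^ 3)⁻¹) * ∫⁻ x, ENNReal.ofReal (f x ^ 2) := cov hfm hs0
  have e3 : ∫⁻ y, ‖fderiv ℝ g y‖ₑ ^ 2
      ≤ ENNReal.ofReal ((s ^ 3)⁻¹) * (ENNReal.ofReal (3 * s ^ 2) * ∫⁻ x, ‖fderiv ℝ f x‖ₑ ^ 2) := by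
    rw [← lintegral_const_mul _ hdm, ← cov (hdm.const_mul _) hs0]
    refine lintegral_mono fun y => ?_
    have h1 : fderiv ℝ g y = (fderiv ℝ f (T y)).comp (s • L) := by
      have h2 : HasFDerivAt g ((fderiv ℝ f (T y)).comp (s • L)) y :=
        ((hf.differentiable (by norm_num) (T y)).hasFDerivAt).comp y (hTc y)
      exact h2.fderiv
    rw [h1]
    have hLn : ‖L‖ ≤ √3 := by
      refine L.opNorm_le_bound (by positivity) fun z => ?_
      have : L z = WithLp.toLp 2 z := by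
        rw [hL]
        simp
      rw [this]
      exact norm_toLp_le z
    have h3 : ‖(fderiv ℝ f (T y)).comp (s • L)‖ ≤ ‖fderiv ℝ f (T y)‖ * (s * √3) := by
      refine (ContinuousLinearMap.opNorm_comp_le _ _).trans ?_
      gcongr
      rw [norm_smul, Real.norm_of_nonneg hs0.le]
      gcongr
    have h4 : ‖(fderiv ℝ f (T y)).comp (s • L)‖ ^ 2 ≤ 3 * s ^ 2 * ‖fderiv ℝ f (T y)‖ ^ 2 := by
      calc ‖(fderiv ℝ f (T y)).comp (s • L)‖ ^ 2 ≤ (‖fderiv ℝ f (T y)‖ * (s * √3)) ^ 2 := by gcongr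
        _ = (√3) ^ 2 * s ^ 2 * ‖fderiv ℝ f (T y)‖ ^ 2 := by ring
        _ = _ := by rw [Real.sq_sqrt (by norm_num)]
    rw [← ofReal_norm, ← ofReal_norm, ← ENNReal.ofReal_pow (norm_nonneg _),
      ← ENNReal.ofReal_pow (norm_nonneg _), ← ENNReal.ofReal_mul (by positivity)]
    exact ENNReal.ofReal_le_ofReal h4
  rw [e1, e2] at key
  set P := ∫⁻ x, ENNReal.ofReal (f x ^ 2) with hP
  set D := ∫⁻ x, ‖fderiv ℝ f x‖ₑ ^ 2 with hD
  set κ := ENNReal.ofReal ((s ^ 3)⁻¹) with hκ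
  have hκ0 : κ ≠ 0 := by
    rw [hκ, Ne, ENNReal.ofReal_eq_zero, not_le]
    positivity
  have hκt : κ ≠ ⊤ := ENNReal.ofReal_ne_top
  have h5 : κ * ∫⁻ x, V x * ENNReal.ofReal (f x ^ 2)
      ≤ κ * (ENNReal.ofReal (512 * (p / (p - 1))) ^ 2 * ENNReal.ofReal (8 * B / ρ ^ 2)
        * (P + ENNReal.ofReal (3 * s ^ 2) * D)) := by
    refine key.trans ?_
    calc ENNReal.ofReal (512 * (p / (p - 1))) ^ 2 * ENNReal.ofReal (8 * B / ρ ^ 2)
          * (κ * P + ∫⁻ y, ‖fderiv ℝ g y‖ₑ ^ 2)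
        ≤ ENNReal.ofReal (512 * (p / (p - 1))) ^ 2 * ENNReal.ofReal (8 * B / ρ ^ 2)
          * (κ * P + κ * (ENNReal.ofReal (3 * s ^ 2) * D)) := by gcongr
      _ = _ := by ring
  have h6 : ∫⁻ x, V x * ENNReal.ofReal (f x ^ 2)
      ≤ ENNReal.ofReal (512 * (p / (p - 1))) ^ 2 * ENNReal.ofReal (8 * B / ρ ^ 2)
        * (P + ENNReal.ofReal (3 * s ^ 2) * D) := (ENNReal.mul_le_mul_iff_right hκ0 hκt).1 h5
  refine h6.trans ?_
  have hq : 0 < p / (p - 1) := by positivity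
  rw [← ENNReal.ofReal_pow (by positivity), ← ENNReal.ofReal_mul (by positivity), mul_add, mul_add,
    ← mul_assoc, ← mul_assoc, ← ENNReal.ofReal_mul (by positivity),
    ← ENNReal.ofReal_mul (by positivity), add_comm]
  gcongr ?_ * _ + ?_ * _
  · refine ENNReal.ofReal_le_ofReal ?_
    have e4 : (512 * (p / (p - 1))) ^ 2 * (8 * B / ρ ^ 2) * (3 * s ^ 2)
        = (512 * (p / (p - 1))) ^ 2 * B * 6 := by
      rw [hs]
      field_simp
      ring
    have e5 : (2048 * (p / (p - 1))) ^ 2 * B = (512 * (p / (p - 1))) ^ 2 * B * 16 := by ring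
    rw [e4, e5]
    gcongr
    norm_num
  · refine ENNReal.ofReal_le_ofReal ?_
    have e4 : (512 * (p / (p - 1))) ^ 2 * (8 * B / ρ ^ 2)
        = (512 * (p / (p - 1))) ^ 2 * B * (1 / ρ ^ 2) * 8 := by ring
    have e5 : (2048 * (p / (p - 1))) ^ 2 * B * (1 / ρ ^ 2)
        = (512 * (p / (p - 1))) ^ 2 * B * (1 / ρ ^ 2) * 16 := by ring
    rw [e4, e5]
    gcongr
    norm_num

end Pool.Agent.R211.FP
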