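import Pool.Agent.R211.FP.Wt
import Pool.Agent.R211.FP.Pc

/-!
The Fefferman-Phong inequality at the unit scale.
-/

set_option autoImplicit false

open MeasureTheory Set Filter Topology
open scoped ENNReal

namespace Pool.Agent.R211.FP

/-- the bound for the sum, with an induction -/
lemma sum_aux (K : ℕ) : ∀ α ω : ℝ, 0 ≤ α → 0 ≤ ω →
    ∑ k ∈ Finset.range K, min (((2 : ℝ) ^ k)⁻¹ * ω ^ 2) (2 ^ k * α ^ 2)
      ≤ if α ≤ ω then 4 * (α * ω) - 2 * α ^ 2 else 2 * ω ^ 2 := by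
  induction K with
  | zero =>
    intro α ω hα hω
    rw [Finset.sum_range_zero]
    split_ifs with h
    · nlinarith [mul_le_mul_of_nonneg_left h hα]
    · positivity
  | succ K ih =>
    intro α ω hα hω
    rw [Finset.sum_range_succ']
    have e1 : ∑ k ∈ Finset.range K, min (((2 : ℝ) ^ (k + 1))⁻¹ * ω ^ 2) (2 ^ (k + 1) * α ^ 2)
        = ∑ k ∈ Finset.range K, min (((2 : ℝ) ^ k)⁻¹ * (ω / √2) ^ 2) (2 ^ k * (√2 * α) ^ 2) := by
      refine Finset.sum_congr rfl fun k _ => ?_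
      congr 1
      · rw [div_pow, Real.sq_sqrt (by norm_num), pow_succ, mul_inv]
        ring
      · rw [mul_pow, Real.sq_sqrt (by norm_num), pow_succ]
        ring
    have h2 := ih (√2 * α) (ω / √2) (by positivity) (by positivity)
    rw [← e1] at h2
    have s2 : (0 : ℝ) < √2 := by positivity
    have hs2 : √2 ^ 2 = 2 := Real.sq_sqrt (by norm_num)
    have e2 : √2 * α * (ω / √2) = α * ω := by
      field_simp
    have e3 : (ω / √2) ^ 2 = ω ^ 2 / 2 := by rw [div_pow, hs2]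
    rw [e2, mul_pow, hs2, e3] at h2
    have h0 : min (((2 : ℝ) ^ 0)⁻¹ * ω ^ 2) (2 ^ 0 * α ^ 2) = min (ω ^ 2) (α ^ 2) := by norm_num
    rw [h0]
    by_cases hc : √2 * α ≤ ω / √2
    · rw [if_pos hc] at h2
      have h3 : 2 * α ≤ ω := by
        rw [le_div_iff₀ s2] at hc
        nlinarith
      have h4 : α ≤ ω := by linarith
      rw [if_pos h4]
      have h5 : min (ω ^ 2) (α ^ 2) ≤ α ^ 2 := min_le_right _ _
      nlinarith
    · rw [if_neg hc] at h2
      have h3 : ω < 2 * α := by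
        rw [not_le, div_lt_iff₀ s2] at hc
        nlinarith
      by_cases h4 : α ≤ ω
      · rw [if_pos h4]
        have h5 : min (ω ^ 2) (α ^ 2) ≤ α ^ 2 := min_le_right _ _
        nlinarith [mul_nonneg (sub_nonneg.2 h4) (sub_nonneg.2 h3.le)]
      · rw [if_neg h4]
        have h5 : min (ω ^ 2) (α ^ 2) ≤ ω ^ 2 := min_le_left _ _
        linarith

lemma sum_real {a w : ℝ} (ha : 0 ≤ a) (hw : 0 ≤ w) (K : ℕ) :
    ∑ k ∈ Finset.range K, min (((2 : ℝ) ^ k)⁻¹ * w) (2 ^ k * a) ≤ 4 * (√a * √w) := by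
  have h1 := sum_aux K (√a) (√w) (by positivity) (by positivity)
  rw [Real.sq_sqrt ha, Real.sq_sqrt hw] at h1
  refine h1.trans ?_
  have h2 : √a ^ 2 = a := Real.sq_sqrt ha
  have h3 : √w ^ 2 = w := Real.sq_sqrt hw
  split_ifs with h
  · linarith
  · rw [not_le] at h
    nlinarith [Real.sqrt_nonneg w, Real.sqrt_nonneg a, mul_nonneg (Real.sqrt_nonneg w) (sub_nonneg.2 h.le)]

/-- the bound for the sum -/
lemma sum_le {a w : ℝ≥0∞} (ha : a ≠ ⊤) (hw : w ≠ ⊤) (K : ℕ) :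
    ∑ k ∈ Finset.range K, min (((2 : ℝ≥0∞) ^ k)⁻¹ * w) (2 ^ k * a)
      ≤ 4 * (a ^ (1 / 2 : ℝ) * w ^ (1 / 2 : ℝ)) := by
  lift a to NNReal using ha
  lift w to NNReal using hw
  have h1 := sum_real a.2 w.2 K
  have e1 : ∀ k : ℕ, min (((2 : ℝ≥0∞) ^ k)⁻¹ * w) (2 ^ k * a)
      = ENNReal.ofReal (min (((2 : ℝ) ^ k)⁻¹ * w) (2 ^ k * a)) := by
    intro k
    rw [ENNReal.ofReal_min, ENNReal.ofReal_mul (by positivity), ENNReal.ofReal_mul (by positivity),
      ENNReal.ofReal_inv_of_pos (by positivity), ENNReal.ofReal_pow (by norm_num)]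
    simp
  have e2 : 4 * ((a : ℝ≥0∞) ^ (1 / 2 : ℝ) * (w : ℝ≥0∞) ^ (1 / 2 : ℝ))
      = ENNReal.ofReal (4 * (√a * √w)) := by
    have e3 : ENNReal.ofReal ((a : ℝ) ^ (1 / 2 : ℝ)) = (a : ℝ≥0∞) ^ (1 / 2 : ℝ) := by
      rw [← ENNReal.ofReal_rpow_of_nonneg (show (0 : ℝ) ≤ (a : ℝ) from a.2) (by norm_num)]
      simp
    have e4 : ENNReal.ofReal ((w : ℝ) ^ (1 / 2 : ℝ)) = (w : ℝ≥0∞) ^ (1 / 2 : ℝ) := by
      rw [← ENNReal.ofReal_rpow_of_nonneg (show (0 : ℝ) ≤ (w : ℝ) from w.2) (by norm_num)]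
      simp
    rw [ENNReal.ofReal_mul (by norm_num), ENNReal.ofReal_mul (by positivity), Real.sqrt_eq_rpow,
      Real.sqrt_eq_rpow, e3, e4]
    norm_num
  simp only [e1]
  rw [e2, ← ENNReal.ofReal_sum_of_nonneg]
  · exact ENNReal.ofReal_le_ofReal h1
  · intro k _
    positivity

lemma E_mono_on {k : ℕ} {g h : X → ℝ≥0∞} {x : X} (hgh : ∀ y, ix k y = ix k x → g y ≤ h y) :
    E k g x ≤ E k h x := by
  unfold E
  have h1 : ∫⁻ y in Qc k (ix k x), g y ≤ ∫⁻ y in Qc k (ix k x), h y :=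
    setLIntegral_mono' (Qc_meas _ _) hgh
  gcongr

/-- the averages of a continuous function converge -/
lemma E_tendsto {g : X → ℝ≥0∞} (hg : Continuous g) {x : X} (hx : g x ≠ ⊤) :
    Tendsto (fun k => E k g x) atTop (𝓝 (g x)) := by
  rw [ENNReal.tendsto_nhds hx]
  intro ε hε
  have h1 := (ENNReal.tendsto_nhds hx).1 (hg.tendsto x) ε hε
  obtain ⟨δ, hδ, hδ2⟩ := Metric.eventually_nhds_iff.1 h1
  have h3 : Tendsto (fun k : ℕ => ((2 : ℝ) ^ k)⁻¹) atTop (𝓝 0) :=
    tendsto_inv_atTop_zero.comp (tendsto_pow_atTop_atTop_of_one_lt (by norm_num))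
  filter_upwards [h3.eventually_lt_const hδ] with k hk
  have h4 : ∀ y, ix k y = ix k x → g y ∈ Icc (g x - ε) (g x + ε) := by
    intro y hy
    refine hδ2 ?_
    rw [dist_eq_norm]
    exact (norm_le k (ix k x) (show y ∈ Qc k (ix k x) from hy) rfl).trans_lt hk
  constructor
  · calc g x - ε = E k (fun _ => g x - ε) x := (E_const _ _ _).symm
      _ ≤ _ := E_mono_on fun y hy => (h4 y hy).1
  · calc E k g x ≤ E k (fun _ => g x + ε) x := E_mono_on fun y hy => (h4 y hy).2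
      _ = _ := E_const _ _ _

/-- Jensen -/
lemma E_jensen {p : ℝ} (hp : 1 < p) {V : X → ℝ≥0∞} (hV : Measurable V) (k : ℕ) (x : X) :
    E k V x ≤ E k (fun y => V y ^ p) x ^ (1 / p) := by
  unfold E
  have hpq : p.HolderConjugate (p.conjExponent) := Real.HolderConjugate.conjExponent hp
  set q := p.conjExponent with hq
  have h1 := ENNReal.lintegral_mul_le_Lp_mul_Lq (volume.restrict (Qc k (ix k x))) hpq
    (f := V) (g := fun _ => 1) hV.aemeasurable aemeasurable_const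
  simp only [Pi.mul_apply, mul_one, ENNReal.one_rpow] at h1
  rw [setLIntegral_const, one_mul, vol_Qc] at h1
  have hp0 : 0 < p := by linarith
  have hq0 : 0 < q := hpq.symm.pos
  calc 8 ^ k * ∫⁻ y in Qc k (ix k x), V y
      ≤ 8 ^ k * ((∫⁻ y in Qc k (ix k x), V y ^ p) ^ (1 / p) * ((8 ^ k)⁻¹) ^ (1 / q)) := by
        gcongr
    _ = _ := by
        rw [ENNReal.mul_rpow_of_nonneg _ _ (by positivity), ENNReal.inv_rpow, ← ENNReal.rpow_neg]
        have h2 : ((8 : ℝ≥0∞) ^ k) = (8 ^ k) ^ (1 : ℝ) := (ENNReal.rpow_one _).symm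
        have h3 : (8 : ℝ≥0∞) ^ k * (8 ^ k) ^ (-(1 / q)) = (8 ^ k) ^ (1 / p) := by
          nth_rewrite 1 [h2]
          rw [← ENNReal.rpow_add _ _ (pow8_ne k) (pow8_top k)]
          congr 1
          have := hpq.one_sub_inv
          rw [one_div, one_div]
          linarith
        rw [← h3]
        ring

lemma young {a b : ℝ≥0∞} (ha : a ≠ ⊤) (hb : b ≠ ⊤) : a * b ≤ 2⁻¹ * a ^ 2 + 2⁻¹ * b ^ 2 := by
  lift a to NNReal using ha
  lift b to NNReal using hb
  have y1 : a * b ≤ 2⁻¹ * a ^ 2 + 2⁻¹ * b ^ 2 := by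
    rw [← NNReal.coe_le_coe]
    push_cast
    nlinarith [sq_nonneg ((a : ℝ) - b)]
  have y2 : ((a * b : NNReal) : ℝ≥0∞) ≤ ((2⁻¹ * a ^ 2 + 2⁻¹ * b ^ 2 : NNReal) : ℝ≥0∞) :=
    ENNReal.coe_le_coe.2 y1
  push_cast at y2
  exact y2

/-- the weighted inequality -/
theorem weighted {p : ℝ} (hp : 1 < p) {U : X → ℝ≥0∞} (hUm : Measurable U) {A : ℝ≥0∞} (hA : A ≠ ⊤)
    (hU : ∀ k x, E k U x ≤ (A * 4 ^ k) ^ p) {f : X → ℝ} (hf : ContDiff ℝ 1 f)
    (hfc : HasCompactSupport f) (K : ℕ) :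
    ∫⁻ x, W p U K x * ENNReal.ofReal (f x ^ 2)
      ≤ ENNReal.ofReal (512 * (p / (p - 1))) ^ 2 * A
        * ((∫⁻ x, ENNReal.ofReal (f x ^ 2)) + ∫⁻ x, ‖fderiv ℝ f x‖ₑ ^ 2) := by
  have hp1 : 0 < p - 1 := by linarith
  have hc1 : 1 ≤ p / (p - 1) := by
    rw [le_div_iff₀ hp1]
    linarith
  set c : ℝ≥0∞ := ENNReal.ofReal (p / (p - 1)) with hc
  have hcE : ENNReal.ofReal (512 * (p / (p - 1))) = 512 * c := by
    rw [ENNReal.ofReal_mul (by norm_num), hc]
    norm_num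
  have hc1' : 1 ≤ c := by
    rw [hc, ← ENNReal.ofReal_one]
    exact ENNReal.ofReal_le_ofReal hc1
  have hct : c ≠ ⊤ := ENNReal.ofReal_ne_top
  rw [hcE]
  have hWm : Measurable (W p U K) := (W_lv p U K).meas
  have hh : ContDiff ℝ 1 fun y => f y ^ 2 := hf.pow 2
  set g : X → ℝ≥0∞ := fun y => ENNReal.ofReal (f y ^ 2) with hg
  have hgm : Measurable g := (hf.continuous.pow 2).measurable.ennreal_ofReal
  set G : X → ℝ≥0∞ := fun y => ‖fderiv ℝ (fun y => f y ^ 2) y‖ₑ with hG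
  have hGm : Measurable G := (hh.continuous_fderiv (by norm_num)).measurable.enorm
  have hWt : ∀ x, W p U K x ≠ ⊤ := fun x => ne_top_of_le_ne_top
    (ENNReal.mul_ne_top hA (ENNReal.pow_ne_top (by norm_num))) (W_le hp hU K x)
  -- telescoping
  have t1 : ∀ n x, E n g x ≤ E 0 g x
      + 64 * ∑ k ∈ Finset.range n, (2 ^ k)⁻¹ * E k G x := by
    intro n
    induction n with
    | zero =>
      intro x
      simp
    | succ n ih =>
      intro x
      refine (E_succ_le hh n x).trans ?_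
      rw [Finset.sum_range_succ, mul_add, ← add_assoc]
      gcongr
      exact ih x
  -- symmetric form
  have t2 : ∫⁻ x, W p U K x * g x = ∫⁻ x, W p U K x * E K g x := by
    rw [← E_symm K hgm hWm]
    refine lintegral_congr fun x => ?_
    rw [E_self (W_lv p U K)]
  have t3 : ∫⁻ x, W p U K x * E K g x
      ≤ (∫⁻ x, E 0 (W p U K) x * g x)
        + 64 * ∑ k ∈ Finset.range K, (2 ^ k)⁻¹ * ∫⁻ x, E k (W p U K) x * G x := by
    calc ∫⁻ x, W p U K x * E K g x
        ≤ ∫⁻ x, (W p U K x * E 0 g x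
          + ∑ k ∈ Finset.range K, 64 * ((2 ^ k)⁻¹ * (W p U K x * E k G x))) := by
          refine lintegral_mono fun x => ?_
          calc W p U K x * E K g x ≤ W p U K x * (E 0 g x
                + 64 * ∑ k ∈ Finset.range K, (2 ^ k)⁻¹ * E k G x) := by
                gcongr
                exact t1 K x
            _ = _ := by
                rw [mul_add, Finset.mul_sum, Finset.mul_sum]
                congr 1
                refine Finset.sum_congr rfl fun k _ => ?_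
                ring
      _ = _ := by
          have hm0 : Measurable fun x => W p U K x * E 0 g x := hWm.mul (E_meas _ _)
          rw [lintegral_add_left hm0, lintegral_finsetSum, Finset.mul_sum]
          · congr 1
            · rw [← E_symm 0 hgm hWm]
            · refine Finset.sum_congr rfl fun k _ => ?_
              rw [lintegral_const_mul, lintegral_const_mul, E_symm k hGm hWm]
              · exact hWm.mul (E_meas _ _)
              · exact (hWm.mul (E_meas _ _)).const_mul _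
          · intro k _
            exact ((hWm.mul (E_meas _ _)).const_mul _).const_mul _
  have t4 : ∫⁻ x, E 0 (W p U K) x * g x ≤ c * A * ∫⁻ x, g x := by
    rw [← lintegral_const_mul _ hgm]
    refine lintegral_mono fun x => ?_
    gcongr
    refine (E_W_le hp hUm hA hU (Nat.zero_le K) x).trans ?_
    gcongr
    have := W_le hp hU 0 x
    simpa using this
  have t5 : ∑ k ∈ Finset.range K, (2 ^ k)⁻¹ * ∫⁻ x, E k (W p U K) x * G x
      ≤ ∫⁻ x, 4 * c * (A ^ (1 / 2 : ℝ) * W p U K x ^ (1 / 2 : ℝ)) * G x := by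
    have u1 : ∑ k ∈ Finset.range K, (2 ^ k)⁻¹ * ∫⁻ x, E k (W p U K) x * G x
        = ∫⁻ x, ∑ k ∈ Finset.range K, (2 ^ k)⁻¹ * (E k (W p U K) x * G x) := by
      rw [lintegral_finsetSum]
      · refine Finset.sum_congr rfl fun k _ => ?_
        rw [lintegral_const_mul]
        exact (E_meas _ _).mul hGm
      · intro k _
        exact ((E_meas _ _).mul hGm).const_mul _
    rw [u1]
    refine lintegral_mono fun x => ?_
    have u2 : ∑ k ∈ Finset.range K, (2 ^ k)⁻¹ * (E k (W p U K) x * G x)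
        = (∑ k ∈ Finset.range K, (2 ^ k)⁻¹ * E k (W p U K) x) * G x := by
      rw [Finset.sum_mul]
      refine Finset.sum_congr rfl fun k _ => ?_
      ring
    simp only [u2]
    gcongr
    calc ∑ k ∈ Finset.range K, ((2 : ℝ≥0∞) ^ k)⁻¹ * E k (W p U K) x
        ≤ ∑ k ∈ Finset.range K, c * min (((2 : ℝ≥0∞) ^ k)⁻¹ * W p U K x) (2 ^ k * A) := by
          refine Finset.sum_le_sum fun k hk => ?_
          have hkK : k ≤ K := (Finset.mem_range.1 hk).le
          have v1 := E_W_le hp hUm hA hU hkK x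
          have v2 : ((2 : ℝ≥0∞) ^ k)⁻¹ * E k (W p U K) x ≤ c * (((2 : ℝ≥0∞) ^ k)⁻¹ * W p U k x) := by
            calc ((2 : ℝ≥0∞) ^ k)⁻¹ * E k (W p U K) x ≤ ((2 : ℝ≥0∞) ^ k)⁻¹ * (c * W p U k x) := by
                  gcongr
              _ = _ := by ring
          refine v2.trans ?_
          gcongr
          refine le_min ?_ ?_
          · gcongr
            exact W_mono p U hkK x
          · have v3 : ((2 : ℝ≥0∞) ^ k)⁻¹ * (A * 4 ^ k) = 2 ^ k * A := by
              have : (4 : ℝ≥0∞) ^ k = 2 ^ k * 2 ^ k := by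
                rw [← mul_pow]
                norm_num
              rw [this]
              have v4 : ((2 : ℝ≥0∞) ^ k)⁻¹ * 2 ^ k = 1 :=
                ENNReal.inv_mul_cancel (pow_ne_zero _ (by norm_num)) (ENNReal.pow_ne_top (by norm_num))
              calc ((2 : ℝ≥0∞) ^ k)⁻¹ * (A * (2 ^ k * 2 ^ k))
                  = (((2 : ℝ≥0∞) ^ k)⁻¹ * 2 ^ k) * (2 ^ k * A) := by ring
                _ = _ := by rw [v4, one_mul]
            rw [← v3]
            gcongr
            exact W_le hp hU k x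
      _ = c * ∑ k ∈ Finset.range K, min (((2 : ℝ≥0∞) ^ k)⁻¹ * W p U K x) (2 ^ k * A) := by
          rw [Finset.mul_sum]
      _ ≤ c * (4 * (A ^ (1 / 2 : ℝ) * W p U K x ^ (1 / 2 : ℝ))) := by
          gcongr
          exact sum_le hA (hWt x) K
      _ = _ := by ring
  -- the gradient of the square
  have t6 : ∀ x, G x = 2 * (g x ^ (1 / 2 : ℝ) * ‖fderiv ℝ f x‖ₑ) := by
    intro x
    have w1 : fderiv ℝ (fun y => f y ^ 2) x = (2 * f x) • fderiv ℝ f x := by
      have := ((hf.differentiable (by norm_num) x).hasFDerivAt.pow 2).fderiv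
      rw [this]
      simp
    have w2 : g x ^ (1 / 2 : ℝ) = ‖f x‖ₑ := by
      rw [hg]
      simp only
      rw [ENNReal.ofReal_rpow_of_nonneg (by positivity) (by norm_num), ← Real.sqrt_eq_rpow,
        Real.sqrt_sq_eq_abs, ← Real.norm_eq_abs, ofReal_norm]
    rw [hG]
    simp only
    rw [w1, w2, enorm_smul, enorm_mul, mul_assoc]
    congr 1
    rw [← ofReal_norm]
    norm_num
  -- Young
  have t7 : ∀ x, 64 * (4 * c * (A ^ (1 / 2 : ℝ) * W p U K x ^ (1 / 2 : ℝ)) * G x)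
      ≤ 2⁻¹ * (W p U K x * g x) + 2⁻¹ * ((512 * c) ^ 2 * A * ‖fderiv ℝ f x‖ₑ ^ 2) := by
    intro x
    have hgx : g x ≠ ⊤ := ENNReal.ofReal_ne_top
    set a := (W p U K x ^ (1 / 2 : ℝ) * g x ^ (1 / 2 : ℝ)) with ha
    set b := 512 * c * (A ^ (1 / 2 : ℝ) * ‖fderiv ℝ f x‖ₑ) with hb
    have hat : a ≠ ⊤ := ENNReal.mul_ne_top (ENNReal.rpow_ne_top_of_nonneg (by norm_num) (hWt x))
      (ENNReal.rpow_ne_top_of_nonneg (by norm_num) hgx)
    have hbt : b ≠ ⊤ := ENNReal.mul_ne_top (ENNReal.mul_ne_top (by norm_num) hct)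
      (ENNReal.mul_ne_top (ENNReal.rpow_ne_top_of_nonneg (by norm_num) hA) enorm_ne_top)
    have s1 : ∀ z : ℝ≥0∞, (z ^ (1 / 2 : ℝ)) ^ 2 = z := by
      intro z
      rw [← ENNReal.rpow_natCast, ← ENNReal.rpow_mul]
      norm_num
    have e1 : 64 * (4 * c * (A ^ (1 / 2 : ℝ) * W p U K x ^ (1 / 2 : ℝ)) * G x) = a * b := by
      rw [t6, ha, hb]
      ring
    have e2 : W p U K x * g x = a ^ 2 := by
      rw [ha, mul_pow, s1, s1]
    have e3 : (512 * c) ^ 2 * A * ‖fderiv ℝ f x‖ₑ ^ 2 = b ^ 2 := by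
      have := s1 A
      rw [hb]
      calc (512 * c) ^ 2 * A * ‖fderiv ℝ f x‖ₑ ^ 2
          = (512 * c) ^ 2 * (A ^ (1 / 2 : ℝ)) ^ 2 * ‖fderiv ℝ f x‖ₑ ^ 2 := by rw [this]
        _ = _ := by ring
    rw [e1, e2, e3]
    exact young hat hbt
  set Y := ∫⁻ x, W p U K x * g x with hY
  set D := ∫⁻ x, ‖fderiv ℝ f x‖ₑ ^ 2 with hD
  set Z := ∫⁻ x, g x with hZ
  have hDm : Measurable fun x => ‖fderiv ℝ f x‖ₑ ^ 2 :=
    (hf.continuous_fderiv (by norm_num)).measurable.enorm.pow_const _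
  have t8 : 64 * ∑ k ∈ Finset.range K, (2 ^ k)⁻¹ * ∫⁻ x, E k (W p U K) x * G x
      ≤ 2⁻¹ * Y + 2⁻¹ * ((512 * c) ^ 2 * A * D) := by
    calc 64 * ∑ k ∈ Finset.range K, (2 ^ k)⁻¹ * ∫⁻ x, E k (W p U K) x * G x
        ≤ 64 * ∫⁻ x, 4 * c * (A ^ (1 / 2 : ℝ) * W p U K x ^ (1 / 2 : ℝ)) * G x := by gcongr
      _ = ∫⁻ x, 64 * (4 * c * (A ^ (1 / 2 : ℝ) * W p U K x ^ (1 / 2 : ℝ)) * G x) := by
          rw [lintegral_const_mul]
          exact (((hWm.pow_const _).const_mul _).const_mul _).mul hGm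
      _ ≤ ∫⁻ x, (2⁻¹ * (W p U K x * g x) + 2⁻¹ * ((512 * c) ^ 2 * A * ‖fderiv ℝ f x‖ₑ ^ 2)) :=
          lintegral_mono t7
      _ = _ := by
          have hm1 : Measurable fun x => W p U K x * g x := hWm.mul hgm
          rw [lintegral_add_left (hm1.const_mul _), lintegral_const_mul _ hm1,
            lintegral_const_mul _ (hDm.const_mul _), lintegral_const_mul _ hDm]
  have t9 : Y ≤ c * A * Z + (2⁻¹ * Y + 2⁻¹ * ((512 * c) ^ 2 * A * D)) := by
    calc Y = ∫⁻ x, W p U K x * E K g x := t2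
      _ ≤ _ := t3
      _ ≤ _ := add_le_add t4 t8
  -- finiteness
  have hZt : Z ≠ ⊤ := by
    have h1 : Integrable (fun x => f x ^ 2) := by
      have h2 : HasCompactSupport fun x => f x ^ 2 := hfc.comp_left (g := fun t : ℝ => t ^ 2) (by norm_num)
      exact (hf.continuous.pow 2).integrable_of_hasCompactSupport h2
    exact h1.lintegral_lt_top.ne
  have hYt : Y ≠ ⊤ := by
    refine ne_top_of_le_ne_top (b := (A * 4 ^ K) * Z) ?_ ?_
    · exact ENNReal.mul_ne_top (ENNReal.mul_ne_top hA (ENNReal.pow_ne_top (by norm_num))) hZt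
    · rw [hY, hZ, ← lintegral_const_mul _ hgm]
      refine lintegral_mono fun x => ?_
      gcongr
      exact W_le hp hU K x
  have t10 : 2⁻¹ * Y ≤ c * A * Z + 2⁻¹ * ((512 * c) ^ 2 * A * D) := by
    have hYt2 : 2⁻¹ * Y ≠ ⊤ := ENNReal.mul_ne_top (by norm_num) hYt
    have e1 : Y = 2⁻¹ * Y + 2⁻¹ * Y := by
      rw [← add_mul, ENNReal.inv_two_add_inv_two, one_mul]
    have e2 : 2⁻¹ * Y + 2⁻¹ * Y
        ≤ 2⁻¹ * Y + (c * A * Z + 2⁻¹ * ((512 * c) ^ 2 * A * D)) := by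
      rw [← e1]
      refine t9.trans (le_of_eq ?_)
      ring
    exact (ENNReal.add_le_add_iff_left hYt2).1 e2
  have t11 : Y ≤ 2 * (c * A * Z + 2⁻¹ * ((512 * c) ^ 2 * A * D)) := by
    have e1 : Y = 2 * (2⁻¹ * Y) := by
      rw [← mul_assoc, ENNReal.mul_inv_cancel (by norm_num) (by norm_num), one_mul]
    rw [e1]
    gcongr
  refine t11.trans ?_
  have e5 : 2 * (c * A * Z + 2⁻¹ * ((512 * c) ^ 2 * A * D))
      = 2 * c * A * Z + (512 * c) ^ 2 * A * D := by
    rw [mul_add, ← mul_assoc 2 (2⁻¹ : ℝ≥0∞), ENNReal.mul_inv_cancel (by norm_num) (by norm_num),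
      one_mul]
    ring
  rw [e5, mul_add]
  gcongr
  calc 2 * c = 2 * c * 1 := (mul_one _).symm
    _ ≤ (512 * c) * (512 * c) := by
        gcongr
        · norm_num
        · calc (1 : ℝ≥0∞) ≤ 1 * c := by rw [one_mul]; exact hc1'
            _ ≤ 512 * c := by
                gcongr
                norm_num
    _ = _ := by ring

/-- **The Fefferman-Phong inequality at the unit scale.** -/
theorem unit_scale {p : ℝ} (hp : 1 < p) {V : X → ℝ≥0∞} (hV : Measurable V) (hVt : ∀ x, V x ≠ ⊤)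
    {A : ℝ≥0∞} (hA : A ≠ ⊤) (hU : ∀ k x, E k (fun y => V y ^ p) x ≤ (A * 4 ^ k) ^ p)
    {f : X → ℝ} (hf : ContDiff ℝ 1 f) (hfc : HasCompactSupport f) :
    ∫⁻ x, V x * ENNReal.ofReal (f x ^ 2)
      ≤ ENNReal.ofReal (512 * (p / (p - 1))) ^ 2 * A
        * ((∫⁻ x, ENNReal.ofReal (f x ^ 2)) + ∫⁻ x, ‖fderiv ℝ f x‖ₑ ^ 2) := by
  set g : X → ℝ≥0∞ := fun y => ENNReal.ofReal (f y ^ 2) with hg
  have hgc : Continuous g := ENNReal.continuous_ofReal.comp (hf.continuous.pow 2)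
  have hgm : Measurable g := hgc.measurable
  have h1 : ∀ x, V x * g x = liminf (fun k => V x * E k g x) atTop := by
    intro x
    have h2 : Tendsto (fun k => V x * E k g x) atTop (𝓝 (V x * g x)) :=
      ENNReal.Tendsto.const_mul (E_tendsto hgc ENNReal.ofReal_ne_top) (Or.inr (hVt x))
    exact h2.liminf_eq.symm
  have h3 : ∀ k, ∫⁻ x, V x * E k g x ≤ ENNReal.ofReal (512 * (p / (p - 1))) ^ 2 * A
        * ((∫⁻ x, g x) + ∫⁻ x, ‖fderiv ℝ f x‖ₑ ^ 2) := by
    intro k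
    refine le_trans ?_ (weighted hp (hV.pow_const p) hA hU hf hfc k)
    rw [← E_symm k hgm hV]
    refine lintegral_mono fun x => ?_
    show E k V x * g x ≤ W p (fun y => V y ^ p) k x * g x
    gcongr
    exact (E_jensen hp hV k x).trans (E_le_W p _ k x)
  calc ∫⁻ x, V x * g x = ∫⁻ x, liminf (fun k => V x * E k g x) atTop := lintegral_congr h1
    _ ≤ liminf (fun k => ∫⁻ x, V x * E k g x) atTop :=
        lintegral_liminf_le fun k => hV.mul (E_meas _ _)
    _ ≤ _ := by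
        refine liminf_le_of_le (by isBoundedDefault) fun b hb => ?_
        obtain ⟨k, hk⟩ := hb.exists
        exact hk.trans (h3 k)

end Pool.Agent.R211.FP
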