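import Pool.Agent.R211.FP.Rs
import Pool.Agent.TH340.FF.Form5

/-!
The Fefferman-Phong inequality for vector fields and the form inequality for test fields.
-/

set_option autoImplicit false

open MeasureTheory Set Filter Topology
open scoped InnerProductSpace ENNReal ContDiff

namespace Pool.Agent.R211.FP

open H772R2.NS Pool.Agent.TH340.FF

/-- The constant. -/
noncomputable def kap (p : ℝ) : ℝ := 2048 * (p / (p - 1))

lemma kap_pos {p : ℝ} (hp : 1 < p) : 0 < kap p := by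
  have : 0 < p - 1 := by linarith
  unfold kap
  positivity

lemma dual_norm (L : E3 →L[ℝ] ℝ) : ‖L‖ ^ 2 ≤ ∑ j, (L (ev j)) ^ 2 := by
  set w : E3 := WithLp.toLp 2 fun j => L (ev j) with hw
  have h1 : ∀ x : E3, L x = ⟪w, x⟫_ℝ := by
    intro x
    have h3 : x = ∑ j, x j • ev j := by
      refine PiLp.ext fun l => ?_
      simp [ev, Pi.single_apply, Finset.sum_apply]
    rw [inner_E3]
    conv_lhs => rw [h3]
    rw [map_sum]
    refine Finset.sum_congr rfl fun j _ => ?_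
    rw [map_smul, smul_eq_mul, hw]
    simp only
    ring
  have h2 : ‖L‖ ≤ ‖w‖ := by
    refine L.opNorm_le_bound (norm_nonneg _) fun x => ?_
    rw [h1]
    exact norm_inner_le_norm _ _
  calc ‖L‖ ^ 2 ≤ ‖w‖ ^ 2 := by gcongr
    _ = _ := norm_sq_E3 w

section

variable {φ : E3 → E3}

lemma cont_phi2 (h : ContDiff ℝ ∞ φ) : Continuous fun x => ∑ i, φ x i ^ 2 :=
  continuous_finsetSum _ fun i _ => (contDiff_coord h i).continuous.pow 2

lemma int_phi2 (h : ContDiff ℝ ∞ φ) (hc : HasCompactSupport φ) :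
    Integrable fun x => ∑ i, φ x i ^ 2 :=
  integrable_finsetSum _ fun i _ =>
    Continuous.integrable_of_hasCompactSupport ((contDiff_coord h i).continuous.pow 2)
      ((hasCompactSupport_coord hc i).comp_left (g := fun y : ℝ => y ^ 2) (by simp))

lemma int_jac2 (h : ContDiff ℝ ∞ φ) (hc : HasCompactSupport φ) :
    Integrable fun x => ∑ i, ∑ j, jac φ x (i, j) ^ 2 :=
  integrable_finsetSum _ fun i _ => integrable_finsetSum _ fun j _ =>
    Continuous.integrable_of_hasCompactSupport ((cont_jac_coord h i j).pow 2)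
      ((hcs_jac_coord h hc i j).comp_left (g := fun y : ℝ => y ^ 2) (by simp))

/-- the Fefferman-Phong inequality for vector fields -/
theorem vec_FP {p : ℝ} (hp : 1 < p) {v : E3 → ℝ} (hv : Measurable v)
    {B ρ : ℝ} (hB : 0 ≤ B) (hρ : 0 < ρ) (hM : ∀ x : E3, ∀ r : ℝ, 0 < r → r ≤ ρ →
      ∫⁻ y in Metric.ball x r, ENNReal.ofReal (v y) ^ p ≤ ENNReal.ofReal (B ^ p * r ^ (3 - 2 * p)))
    (h : ContDiff ℝ ∞ φ) (hc : HasCompactSupport φ) :
    ∫⁻ x, ENNReal.ofReal (v x) * ENNReal.ofReal (∑ i, φ x i ^ 2)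
      ≤ ENNReal.ofReal (kap p ^ 2 * B * ((∫ x, ∑ i, ∑ j, jac φ x (i, j) ^ 2)
          + 1 / ρ ^ 2 * ∫ x, ∑ i, φ x i ^ 2)) := by
  have h1 : ∀ i : Fin 3, ∫⁻ x, ENNReal.ofReal (v x) * ENNReal.ofReal (φ x i ^ 2)
      ≤ ENNReal.ofReal (kap p ^ 2 * B)
        * ((∫⁻ x, ENNReal.ofReal (∑ j, jac φ x (i, j) ^ 2))
          + ENNReal.ofReal (1 / ρ ^ 2) * ∫⁻ x, ENNReal.ofReal (φ x i ^ 2)) := by
    intro i
    have hi : ContDiff ℝ 1 fun x => φ x i := (contDiff_coord h i).of_le (by exact_mod_cast le_top)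
    refine (scaled hp hv.ennreal_ofReal (fun _ => ENNReal.ofReal_ne_top) hB hρ hM hi
      (hasCompactSupport_coord hc i)).trans ?_
    unfold kap
    gcongr with x
    rw [← ofReal_norm, ← ENNReal.ofReal_pow (norm_nonneg _)]
    refine ENNReal.ofReal_le_ofReal ((dual_norm _).trans (le_of_eq ?_))
    refine Finset.sum_congr rfl fun j _ => ?_
    rw [jac_eq_coord h]
  have m1 : ∀ i, Measurable fun x => ENNReal.ofReal (φ x i ^ 2) := fun i =>
    ((contDiff_coord h i).continuous.pow 2).measurable.ennreal_ofReal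
  have m2 : ∀ i, Measurable fun x => ENNReal.ofReal (∑ j, jac φ x (i, j) ^ 2) := fun i =>
    (continuous_finsetSum _ fun j _ => (cont_jac_coord h i j).pow 2).measurable.ennreal_ofReal
  have e1 : ∀ x, ENNReal.ofReal (∑ i, φ x i ^ 2) = ∑ i, ENNReal.ofReal (φ x i ^ 2) := fun x =>
    ENNReal.ofReal_sum_of_nonneg fun i _ => by positivity
  have e2 : ∀ x, ENNReal.ofReal (∑ i, ∑ j, jac φ x (i, j) ^ 2)
      = ∑ i, ENNReal.ofReal (∑ j, jac φ x (i, j) ^ 2) := fun x =>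
    ENNReal.ofReal_sum_of_nonneg fun i _ => by positivity
  have hD0 : 0 ≤ ∫ x, ∑ i, ∑ j, jac φ x (i, j) ^ 2 := integral_nonneg fun x => by positivity
  have hN0 : 0 ≤ ∫ x, ∑ i, φ x i ^ 2 := integral_nonneg fun x => by positivity
  have hk : 0 ≤ kap p ^ 2 * B := by positivity
  have hρ2 : 0 ≤ 1 / ρ ^ 2 := by positivity
  rw [ENNReal.ofReal_mul hk, ENNReal.ofReal_add hD0 (mul_nonneg hρ2 hN0),
    ENNReal.ofReal_mul hρ2, ofReal_integral_eq_lintegral_ofReal (int_jac2 h hc)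
      (Eventually.of_forall fun x => by positivity),
    ofReal_integral_eq_lintegral_ofReal (int_phi2 h hc)
      (Eventually.of_forall fun x => by positivity)]
  simp_rw [e1, e2, Finset.mul_sum]
  have m3 : ∀ i : Fin 3, Measurable fun x => ENNReal.ofReal (v x) * ENNReal.ofReal (φ x i ^ 2) :=
    fun i => hv.ennreal_ofReal.mul (m1 i)
  rw [lintegral_finsetSum _ fun i _ => m3 i,
    lintegral_finsetSum _ fun i _ => m2 i, lintegral_finsetSum _ fun i _ => m1 i]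
  refine (Finset.sum_le_sum fun i _ => h1 i).trans (le_of_eq ?_)
  rw [← Finset.mul_sum, Finset.sum_add_distrib, ← Finset.mul_sum]

/-- the same with real integrals -/
theorem real_FP {p : ℝ} (hp : 1 < p) {v : E3 → ℝ} (hv : Measurable v) (hv0 : ∀ x, 0 ≤ v x)
    {B ρ : ℝ} (hB : 0 ≤ B) (hρ : 0 < ρ) (hM : ∀ x : E3, ∀ r : ℝ, 0 < r → r ≤ ρ →
      ∫⁻ y in Metric.ball x r, ENNReal.ofReal (v y) ^ p ≤ ENNReal.ofReal (B ^ p * r ^ (3 - 2 * p)))
    (h : ContDiff ℝ ∞ φ) (hc : HasCompactSupport φ) :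
    Integrable (fun x => v x * ∑ i, φ x i ^ 2) ∧
    ∫ x, v x * ∑ i, φ x i ^ 2
      ≤ kap p ^ 2 * B * ((∫ x, ∑ i, ∑ j, jac φ x (i, j) ^ 2)
          + 1 / ρ ^ 2 * ∫ x, ∑ i, φ x i ^ 2) := by
  have key := vec_FP hp hv hB hρ hM h hc
  have hD0 : 0 ≤ ∫ x, ∑ i, ∑ j, jac φ x (i, j) ^ 2 := integral_nonneg fun x => by positivity
  have hN0 : 0 ≤ ∫ x, ∑ i, φ x i ^ 2 := integral_nonneg fun x => by positivity
  have hm : Measurable fun x => v x * ∑ i, φ x i ^ 2 := hv.mul (cont_phi2 h).measurable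
  have h0 : ∀ x, 0 ≤ v x * ∑ i, φ x i ^ 2 := fun x => mul_nonneg (hv0 x) (by positivity)
  have e1 : ∫⁻ x, ENNReal.ofReal (v x * ∑ i, φ x i ^ 2)
      = ∫⁻ x, ENNReal.ofReal (v x) * ENNReal.ofReal (∑ i, φ x i ^ 2) :=
    lintegral_congr fun x => ENNReal.ofReal_mul (hv0 x)
  rw [← e1] at key
  refine ⟨⟨hm.aestronglyMeasurable, ?_⟩, ?_⟩
  · rw [hasFiniteIntegral_iff_ofReal (Eventually.of_forall h0)]
    exact key.trans_lt ENNReal.ofReal_lt_top
  · rw [integral_eq_lintegral_of_nonneg_ae (Eventually.of_forall h0) hm.aestronglyMeasurable]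
    refine ENNReal.toReal_le_of_le_ofReal ?_ key
    positivity

end

end Pool.Agent.R211.FP
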