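import Pool.Agent.R211.FP.Dy

/-!
The dyadic maximal weight.
-/

set_option autoImplicit false

open MeasureTheory Set Filter Topology
open scoped ENNReal

namespace Pool.Agent.R211.FP

/-- `max_{i ≤ k} (E_i (V^p))^(1/p)` -/
noncomputable def W (p : ℝ) (U : X → ℝ≥0∞) : ℕ → X → ℝ≥0∞
  | 0, x => E 0 U x ^ (1 / p)
  | k + 1, x => max (W p U k x) (E (k + 1) U x ^ (1 / p))

lemma W_zero (p : ℝ) (U : X → ℝ≥0∞) (x : X) : W p U 0 x = E 0 U x ^ (1 / p) := rfl

lemma W_succ (p : ℝ) (U : X → ℝ≥0∞) (k : ℕ) (x : X) :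
    W p U (k + 1) x = max (W p U k x) (E (k + 1) U x ^ (1 / p)) := rfl

lemma W_lv (p : ℝ) (U : X → ℝ≥0∞) (k : ℕ) : Lv k (W p U k) := by
  induction k with
  | zero =>
    intro x y h
    rw [W_zero, W_zero, E_lv 0 U x y h]
  | succ k ih =>
    intro x y h
    rw [W_succ, W_succ, E_lv (k + 1) U x y h, ih x y (ix_succ k h)]

lemma W_mono (p : ℝ) (U : X → ℝ≥0∞) {j k : ℕ} (hjk : j ≤ k) (x : X) : W p U j x ≤ W p U k x := by
  induction k, hjk using Nat.le_induction with
  | base => exact le_rfl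
  | succ k _ ih =>
    rw [W_succ]
    exact ih.trans (le_max_left _ _)

lemma E_le_W (p : ℝ) (U : X → ℝ≥0∞) (k : ℕ) (x : X) : E k U x ^ (1 / p) ≤ W p U k x := by
  cases k with
  | zero => exact le_rfl
  | succ k => exact le_max_right _ _

lemma E_le_Wp {p : ℝ} (hp : 1 < p) (U : X → ℝ≥0∞) (k : ℕ) (x : X) : E k U x ≤ W p U k x ^ p := by
  have h1 := ENNReal.rpow_le_rpow (E_le_W p U k x) (by linarith : 0 ≤ p)
  rwa [← ENNReal.rpow_mul, one_div_mul_cancel (by linarith), ENNReal.rpow_one] at h1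

lemma W_le {p : ℝ} (hp : 1 < p) {U : X → ℝ≥0∞} {A : ℝ≥0∞}
    (hU : ∀ k x, E k U x ≤ (A * 4 ^ k) ^ p) (k : ℕ) (x : X) : W p U k x ≤ A * 4 ^ k := by
  have h0 : 0 ≤ 1 / p := by positivity
  have key : ∀ k x, E k U x ^ (1 / p) ≤ A * 4 ^ k := by
    intro k x
    have h1 := ENNReal.rpow_le_rpow (hU k x) h0
    rwa [← ENNReal.rpow_mul, mul_one_div_cancel (by linarith), ENNReal.rpow_one] at h1
  induction k with
  | zero => exact key 0 x
  | succ k ih =>
    rw [W_succ]
    refine max_le (ih.trans ?_) (key (k + 1) x)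
    gcongr
    · norm_num
    · omega

/-- an elementary inequality -/
lemma bern {p c t : ℝ} (hp : 1 < p) (hc : 0 < c) (ht : c ≤ t) :
    t + 1 / (p - 1) * t ≤ c + 1 / (p - 1) * (t ^ p * c ^ (1 - p)) := by
  have hp1 : 0 < p - 1 := by linarith
  have h1 := one_add_mul_self_le_rpow_one_add (s := t / c - 1)
    (by have : 1 ≤ t / c := (one_le_div hc).2 ht
        linarith) hp.le
  rw [add_sub_cancel, Real.div_rpow (hc.le.trans ht) hc.le] at h1
  have h2 : t ^ p * c ^ (1 - p) = c * (t ^ p / c ^ p) := by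
    rw [Real.rpow_sub hc, Real.rpow_one]
    ring
  rw [h2]
  have h3 : c * (1 + p * (t / c - 1)) ≤ c * (t ^ p / c ^ p) := by gcongr
  have h4 : c * (1 + p * (t / c - 1)) = c + p * (t - c) := by
    field_simp
  rw [h4] at h3
  have h5 : 1 / (p - 1) * (c + p * (t - c)) ≤ 1 / (p - 1) * (c * (t ^ p / c ^ p)) := by gcongr
  have h6 : t + 1 / (p - 1) * t = c + 1 / (p - 1) * (c + p * (t - c)) := by
    field_simp
    ring
  linarith

/-- The auxiliary functional. -/
noncomputable def Uf (p : ℝ) (U : X → ℝ≥0∞) (k : ℕ) (x : X) : ℝ≥0∞ :=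
  W p U k x + ENNReal.ofReal (1 / (p - 1)) * (W p U k x ^ (1 - p) * E k U x)

lemma Uf_step {p : ℝ} (hp : 1 < p) {U : X → ℝ≥0∞} {A : ℝ≥0∞} (hA : A ≠ ⊤)
    (hU : ∀ k x, E k U x ≤ (A * 4 ^ k) ^ p) (k : ℕ) (x : X) :
    Uf p U (k + 1) x ≤ W p U k x
      + ENNReal.ofReal (1 / (p - 1)) * (W p U k x ^ (1 - p) * E (k + 1) U x) := by
  have hp1 : 0 < p - 1 := by linarith
  unfold Uf
  rw [W_succ]
  rcases le_or_gt (E (k + 1) U x ^ (1 / p)) (W p U k x) with h | h
  · rw [max_eq_left h]
  · rw [max_eq_right h.le]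
    set m := E (k + 1) U x with hm
    have hmt : m ≠ ⊤ := by
      refine ne_top_of_le_ne_top ?_ (hU (k + 1) x)
      exact ENNReal.rpow_ne_top_of_nonneg (by linarith)
        (ENNReal.mul_ne_top hA (ENNReal.pow_ne_top (by norm_num)))
    by_cases hw : W p U k x = 0
    · rw [hw, ENNReal.zero_rpow_of_neg (by linarith)]
      have hm0 : m ≠ 0 := by
        intro h0
        rw [h0, ENNReal.zero_rpow_of_pos (by positivity)] at h
        exact absurd h (by simp)
      rw [ENNReal.top_mul hm0, ENNReal.mul_top, zero_add]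
      · exact le_top
      · rw [Ne, ENNReal.ofReal_eq_zero, not_le]
        positivity
    · have hwt : W p U k x ≠ ⊤ := ne_top_of_lt h
      set c := (W p U k x).toReal with hc
      have hc0 : 0 < c := ENNReal.toReal_pos hw hwt
      have ew : W p U k x = ENNReal.ofReal c := (ENNReal.ofReal_toReal hwt).symm
      set t := (m ^ (1 / p)).toReal with ht
      have htt : m ^ (1 / p) ≠ ⊤ := ENNReal.rpow_ne_top_of_nonneg (by positivity) hmt
      have et : m ^ (1 / p) = ENNReal.ofReal t := (ENNReal.ofReal_toReal htt).symm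
      have hct : c < t := by
        rw [ew, et] at h
        exact (ENNReal.ofReal_lt_ofReal_iff_of_nonneg hc0.le).1 h
      have ht0 : 0 < t := hc0.trans hct
      have em : m = ENNReal.ofReal (t ^ p) := by
        rw [← ENNReal.ofReal_rpow_of_pos ht0, ← et, ← ENNReal.rpow_mul,
          one_div_mul_cancel (by linarith), ENNReal.rpow_one]
      rw [et, ew, em, ENNReal.ofReal_rpow_of_pos hc0, ENNReal.ofReal_rpow_of_pos ht0,
        ← ENNReal.ofReal_mul (by positivity), ← ENNReal.ofReal_mul (by positivity),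
        ← ENNReal.ofReal_mul (by positivity), ← ENNReal.ofReal_mul (by positivity),
        ← ENNReal.ofReal_add (by positivity) (by positivity),
        ← ENNReal.ofReal_add (by positivity) (by positivity)]
      refine ENNReal.ofReal_le_ofReal ?_
      have h1 := bern hp hc0 hct.le
      have h2 : t ^ (1 - p) * t ^ p = t := by
        rw [← Real.rpow_add ht0, sub_add_cancel, Real.rpow_one]
      rw [h2, mul_comm (c ^ (1 - p))]
      exact h1

lemma E_Uf {p : ℝ} (hp : 1 < p) {U : X → ℝ≥0∞} (hUm : Measurable U) {A : ℝ≥0∞} (hA : A ≠ ⊤)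
    (hU : ∀ k x, E k U x ≤ (A * 4 ^ k) ^ p) (k : ℕ) (x : X) :
    E k (Uf p U (k + 1)) x ≤ Uf p U k x := by
  refine (E_mono (fun y => Uf_step hp hA hU k y) x).trans (le_of_eq ?_)
  have hW := (W_lv p U k).meas
  rw [E_add hW, E_self (W_lv p U k)]
  have h1 : E k (fun y => ENNReal.ofReal (1 / (p - 1)) * (W p U k y ^ (1 - p) * E (k + 1) U y)) x
      = ENNReal.ofReal (1 / (p - 1)) * (W p U k x ^ (1 - p) * E k U x) := by
    rw [E_mul (k := k) (g := fun _ => ENNReal.ofReal (1 / (p - 1)))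
      (h := fun y => W p U k y ^ (1 - p) * E (k + 1) U y) (fun _ _ _ => rfl)
      ((hW.pow_const _).mul (E_meas _ _)),
      E_mul (k := k) (g := fun y => W p U k y ^ (1 - p)) (h := E (k + 1) U)
        (fun a b hab => congrArg (fun t => t ^ (1 - p)) (W_lv p U k a b hab)) (E_meas _ _), E_tower (Nat.le_succ k) hUm]
  rw [h1]
  rfl

/-- **The dyadic `A₁` property of the maximal weight.** -/
theorem E_W_le {p : ℝ} (hp : 1 < p) {U : X → ℝ≥0∞} (hUm : Measurable U) {A : ℝ≥0∞} (hA : A ≠ ⊤)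
    (hU : ∀ k x, E k U x ≤ (A * 4 ^ k) ^ p) {j K : ℕ} (hjK : j ≤ K) (x : X) :
    E j (W p U K) x ≤ ENNReal.ofReal (p / (p - 1)) * W p U j x := by
  have hp1 : 0 < p - 1 := by linarith
  have hm : ∀ k, Measurable (Uf p U k) := fun k => by
    have hW := (W_lv p U k).meas
    exact hW.add ((((hW.pow_const _).mul (E_meas _ _))).const_mul _)
  have h1 : E j (Uf p U K) x ≤ Uf p U j x := by
    induction K, hjK using Nat.le_induction with
    | base =>
      rw [E_self]
      intro a b hab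
      unfold Uf
      rw [W_lv p U j a b hab, E_lv j U a b hab]
    | succ K hjK ih =>
      refine le_trans ?_ ih
      rw [← E_tower hjK (hm (K + 1))]
      exact E_mono (fun y => E_Uf hp hUm hA hU K y) x
  have h2 : E j (W p U K) x ≤ E j (Uf p U K) x := E_mono (fun y => by
    unfold Uf
    exact le_self_add) x
  refine (h2.trans h1).trans ?_
  unfold Uf
  have h3 : W p U j x ^ (1 - p) * E j U x ≤ W p U j x := by
    by_cases hw : W p U j x = 0
    · have h4 := E_le_Wp hp U j x
      rw [hw, ENNReal.zero_rpow_of_pos (by linarith), nonpos_iff_eq_zero] at h4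
      rw [h4, mul_zero]
      exact zero_le
    · have hwt : W p U j x ≠ ⊤ := ne_top_of_le_ne_top
        (ENNReal.mul_ne_top hA (ENNReal.pow_ne_top (by norm_num))) (W_le hp hU j x)
      calc W p U j x ^ (1 - p) * E j U x ≤ W p U j x ^ (1 - p) * W p U j x ^ p := by
            gcongr
            exact E_le_Wp hp U j x
        _ = W p U j x := by
            rw [← ENNReal.rpow_add _ _ hw hwt, sub_add_cancel, ENNReal.rpow_one]
  have h4 : ENNReal.ofReal (p / (p - 1)) = 1 + ENNReal.ofReal (1 / (p - 1)) := by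
    rw [← ENNReal.ofReal_one, ← ENNReal.ofReal_add zero_le_one (by positivity)]
    congr 1
    field_simp
    ring
  rw [h4, add_mul, one_mul]
  gcongr

end Pool.Agent.R211.FP
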